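import Pool.Agent.V11247.Tri3.Cov
import Pool.Agent.V11247.Tri3.CheckA
import Pool.Agent.V11247.Tri3.CheckB
import Pool.Agent.V11247.Tri3.CheckC

/-! Three classes of any sizes. -/

set_option autoImplicit false

open Finset

namespace Pool.Agent.V11247.Tri3

open Pool.Agent.Y439.Col (pg)

variable {n : ℕ}

/-- indicator of a triple -/
def ei (M : Finset (Finset (Fin n))) (a b d : Fin n) : ℕ :=
  if ({a, b, d} : Finset (Fin n)) ∈ M then 1 else 0

theorem ei_le (M : Finset (Finset (Fin n))) (a b d : Fin n) : ei M a b d ≤ 1 := by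
  unfold ei
  split_ifs <;> omega

theorem ei_s1 (M : Finset (Finset (Fin n))) (a b d : Fin n) : ei M a b d = ei M b a d := by
  unfold ei
  rw [insert_comm]

theorem ei_s2 (M : Finset (Finset (Fin n))) (a b d : Fin n) : ei M a b d = ei M a d b := by
  unfold ei
  rw [pair_comm]

theorem ei_ne {M : Finset (Finset (Fin n))} {a b d : Fin n} (h : ei M a b d ≠ 0) :
    ({a, b, d} : Finset (Fin n)) ∈ M := by
  unfold ei at h
  by_contra hc
  rw [if_neg hc] at h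
  exact h rfl

theorem ei_sub {M : Finset (Finset (Fin n))} {a b d : Fin n} (h : 1 - ei M a b d ≠ 0) :
    ({a, b, d} : Finset (Fin n)) ∉ M := by
  unfold ei at h
  intro hc
  rw [if_pos hc] at h
  exact h rfl

theorem six_le {M : Finset (Finset (Fin n))} (hM : ∀ e ∈ M, e.card = 3) :
    6 * M.card ≤ ∑ a, ∑ b, ∑ d, ei M a b d := by
  set T : Finset (Fin n × Fin n × Fin n) :=
    univ.filter fun t => ({t.1, t.2.1, t.2.2} : Finset (Fin n)) ∈ M with hT
  have e : ∑ a, ∑ b, ∑ c, ei M a b c = T.card := by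
    rw [hT, Finset.card_filter, Fintype.sum_prod_type]
    refine sum_congr rfl fun a _ => ?_
    rw [Fintype.sum_prod_type]
    rfl
  have hfw := card_eq_sum_card_fiberwise (s := T)
    (f := fun t : Fin n × Fin n × Fin n => ({t.1, t.2.1, t.2.2} : Finset (Fin n)))
    (t := M) (fun t ht => (mem_filter.mp (mem_coe.mp ht)).2)
  rw [e, hfw, mul_comm, ← smul_eq_mul, ← sum_const]
  refine sum_le_sum fun s hs => ?_
  obtain ⟨x, y, z, hxy, hxz, hyz, rfl⟩ := Finset.card_eq_three.mp (hM s hs)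
  have h6 : ({(x, y, z), (x, z, y), (y, x, z), (y, z, x), (z, x, y), (z, y, x)} :
      Finset (Fin n × Fin n × Fin n)).card = 6 := by
    rw [card_insert_of_notMem, card_insert_of_notMem, card_insert_of_notMem,
      card_insert_of_notMem, card_insert_of_notMem, card_singleton] <;>
    simp [hxy, hxz, hyz, hxy.symm, hxz.symm, hyz.symm]
  rw [← h6]
  have key : ∀ u v w : Fin n, ({u, v, w} : Finset (Fin n)) = {x, y, z} →
      (u, v, w) ∈ T.filter
        (fun t : Fin n × Fin n × Fin n => ({t.1, t.2.1, t.2.2} : Finset (Fin n)) = {x, y, z}) := by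
    intro u v w h
    rw [mem_filter, hT, mem_filter]
    exact ⟨⟨mem_univ _, by simpa only [h] using hs⟩, h⟩
  apply card_le_card
  intro t ht
  simp only [mem_insert, mem_singleton] at ht
  rcases ht with rfl | rfl | rfl | rfl | rfl | rfl <;> apply key <;>
    (ext t; simp only [mem_insert, mem_singleton] <;> tauto)

theorem mixed_card3 {H : Finset (Finset (Fin n))} (h3 : ∀ e ∈ H, e.card = 3) (c : Fin n → Fin 3) :
    ∀ e ∈ mixed H c, e.card = 3 := fun e he => h3 e (mem_filter.1 he).1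

theorem mem_mixed {H : Finset (Finset (Fin n))} {c : Fin n → Fin 3} {a b d : Fin n}
    (h : c a ≠ c d) : ({a, b, d} : Finset (Fin n)) ∈ mixed H c ↔ ({a, b, d} : Finset (Fin n)) ∈ H := by
  unfold mixed
  rw [mem_filter]
  exact ⟨fun h => h.1, fun h' => ⟨h', a, by simp, d, by simp, h⟩⟩

theorem mem_mixed' {H : Finset (Finset (Fin n))} {c : Fin n → Fin 3} {a b d : Fin n}
    (h : c b ≠ c d) : ({a, b, d} : Finset (Fin n)) ∈ mixed H c ↔ ({a, b, d} : Finset (Fin n)) ∈ H := by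
  rw [insert_comm]
  exact mem_mixed h

theorem not_mono {H : Finset (Finset (Fin n))} {c : Fin n → Fin 3} {a b d : Fin n}
    (h : ({a, b, d} : Finset (Fin n)) ∈ mixed H c) (h1 : c a = c b) (h2 : c b = c d) : False := by
  unfold mixed at h
  rw [mem_filter] at h
  obtain ⟨-, x, hx, y, hy, hxy⟩ := h
  simp only [mem_insert, mem_singleton] at hx hy
  rcases hx with rfl | rfl | rfl <;> rcases hy with rfl | rfl | rfl <;>
    first
      | exact hxy rfl
      | exact hxy h1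
      | exact hxy h1.symm
      | exact hxy h2
      | exact hxy h2.symm
      | exact hxy (h1.trans h2)
      | exact hxy (h1.trans h2).symm

/-- the hypotheses of the certificates -/
theorem hyp {H : Finset (Finset (Fin n))} (h3 : ∀ e ∈ H, e.card = 3) (hK : Free H)
    (c : Fin n → Fin 3) (x y z w : Fin n) :
    ei (mixed H c) x y z = 0 ∨ ei (mixed H c) x y w = 0 ∨ ei (mixed H c) x z w = 0 ∨
      ei (mixed H c) y z w = 0 := by
  by_contra hcon
  push Not at hcon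
  obtain ⟨g1, g2, g3, g4⟩ := hcon
  have m1 := (mem_filter.1 (ei_ne g1)).1
  have m2 := (mem_filter.1 (ei_ne g2)).1
  have m3 := (mem_filter.1 (ei_ne g3)).1
  have m4 := (mem_filter.1 (ei_ne g4)).1
  have dd : ∀ {a b d : Fin n}, ({a, b, d} : Finset (Fin n)) ∈ H → a ≠ b ∧ a ≠ d ∧ b ≠ d := by
    intro a b d h
    have hc := h3 _ h
    refine ⟨?_, ?_, ?_⟩
    · rintro rfl
      rw [insert_idem] at hc
      have := card_le_two (a := a) (b := d)
      omega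
    · rintro rfl
      have e : ({a, b, a} : Finset (Fin n)) = {a, b} := by
        rw [pair_comm b a, insert_idem]
      rw [e] at hc
      have := card_le_two (a := a) (b := b)
      omega
    · rintro rfl
      have e : ({a, b, b} : Finset (Fin n)) = {a, b} := by
        rw [pair_eq_singleton]
      rw [e] at hc
      have := card_le_two (a := a) (b := b)
      omega
  obtain ⟨a1, a2, a3⟩ := dd m1
  obtain ⟨b1, b2, b3⟩ := dd m2
  obtain ⟨c1, c2, c3⟩ := dd m3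
  exact four hK a1 a2 b2 a3 b3 c3 ⟨m4, m3, m2, m1⟩

theorem cN_eq {c : Fin n → Fin 3} {a b : Fin n} : ((c a : ℕ) = (c b : ℕ)) ↔ c a = c b :=
  Fin.val_inj

/-- The placements of the first configuration: a vertex outside a class and four vertices of the
class on which its link is a star with three leaves (with centre `x 3`). -/
def plA (H : Finset (Finset (Fin n))) (c : Fin n → Fin 3) : Finset (Fin 5 → Fin n) :=
  univ.filter fun x => c (x 0) = c (x 1) ∧ c (x 1) = c (x 2) ∧ c (x 2) = c (x 3) ∧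
    c (x 3) ≠ c (x 4) ∧
    {x 0, x 3, x 4} ∈ H ∧ {x 1, x 3, x 4} ∈ H ∧ {x 2, x 3, x 4} ∈ H ∧
    {x 0, x 1, x 4} ∉ H ∧ {x 0, x 2, x 4} ∉ H ∧ {x 1, x 2, x 4} ∉ H

/-- The placements of the second configuration. -/
def plB (H : Finset (Finset (Fin n))) (c : Fin n → Fin 3) : Finset (Fin 5 → Fin n) :=
  univ.filter fun x => c (x 0) = c (x 1) ∧ c (x 1) = c (x 2) ∧ c (x 3) = c (x 4) ∧
    c (x 2) ≠ c (x 3) ∧
    {x 0, x 1, x 3} ∈ H ∧ {x 0, x 1, x 4} ∈ H ∧ {x 0, x 2, x 3} ∈ H ∧ {x 0, x 2, x 4} ∈ H ∧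
    {x 1, x 2, x 3} ∈ H ∧ {x 1, x 2, x 4} ∈ H ∧ {x 2, x 3, x 4} ∈ H ∧
    {x 0, x 3, x 4} ∉ H ∧ {x 1, x 3, x 4} ∉ H

/-- The placements of the third configuration. -/
def plC (H : Finset (Finset (Fin n))) (c : Fin n → Fin 3) : Finset (Fin 5 → Fin n) :=
  univ.filter fun x => c (x 0) = c (x 1) ∧ c (x 1) = c (x 2) ∧ c (x 2) ≠ c (x 3) ∧
    c (x 2) ≠ c (x 4) ∧ c (x 3) ≠ c (x 4) ∧
    {x 0, x 1, x 3} ∈ H ∧ {x 0, x 1, x 4} ∈ H ∧ {x 0, x 2, x 3} ∈ H ∧ {x 0, x 2, x 4} ∈ H ∧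
    {x 1, x 2, x 4} ∈ H ∧ {x 1, x 3, x 4} ∈ H ∧ {x 2, x 3, x 4} ∈ H ∧
    {x 0, x 3, x 4} ∉ H ∧ {x 1, x 2, x 3} ∉ H

theorem cond_le {b : Bool} {v : ℕ} {P : Prop} [Decidable P] (hv : v ≤ 1)
    (h : b = true → v ≠ 0 → P) : cond b v 0 ≤ if P then 1 else 0 := by
  cases b with
  | false => exact Nat.zero_le _
  | true =>
    show v ≤ _
    by_cases h0 : v = 0
    · rw [h0]; exact Nat.zero_le _
    · rw [if_pos (h rfl h0)]; exact hv

theorem mul1 {a b : ℕ} (ha : a ≤ 1) (hb : b ≤ 1) : Nat.mul a b ≤ 1 := by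
  show a * b ≤ 1
  nlinarith

theorem mul0 {a b : ℕ} (h : Nat.mul a b ≠ 0) : a ≠ 0 ∧ b ≠ 0 := Nat.mul_ne_zero_iff.1 h

theorem beq_t {a b : ℕ} (h : Nat.beq a b = true) : a = b := Nat.eq_of_beq_eq_true h

theorem beq_f {a b : ℕ} (h : (!(Nat.beq a b)) = true) : a ≠ b := by
  rintro rfl
  rw [Nat.beq_refl] at h
  exact absurd h (by decide)

theorem and_t {a b : Bool} (h : (a && b) = true) : a = true ∧ b = true := by
  rwa [Bool.and_eq_true] at h

theorem sumA (H : Finset (Finset (Fin n))) (c : Fin n → Fin 3) :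
    ∑ x : Fin 5 → Fin n, pg CertA.pt (fun v => (c v : ℕ)) (ei (mixed H c)) (x 0) (x 1) (x 2) (x 3)
      (x 4) ≤ (plA H c).card := by
  unfold plA
  rw [card_filter]
  refine sum_le_sum fun x _ => ?_
  refine cond_le ?_ ?_
  · exact mul1 (ei_le _ _ _ _) (mul1 (ei_le _ _ _ _) (mul1 (ei_le _ _ _ _) (mul1 (Nat.sub_le _ _)
      (mul1 (Nat.sub_le _ _) (Nat.sub_le _ _)))))
  · intro hb hv
    obtain ⟨b1, hb⟩ := and_t hb
    obtain ⟨b2, hb⟩ := and_t hb
    obtain ⟨b3, b4⟩ := and_t hb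
    obtain ⟨v1, hv⟩ := mul0 hv
    obtain ⟨v2, hv⟩ := mul0 hv
    obtain ⟨v3, hv⟩ := mul0 hv
    obtain ⟨v4, hv⟩ := mul0 hv
    obtain ⟨v5, v6⟩ := mul0 hv
    have c1 := cN_eq.1 (beq_t b1)
    have c2 := cN_eq.1 (beq_t b2)
    have c3 := cN_eq.1 (beq_t b3)
    have c4 : c (x 3) ≠ c (x 4) := fun h => beq_f b4 (cN_eq.2 h)
    have d2 : c (x 2) ≠ c (x 4) := by rw [c3]; exact c4
    have d1 : c (x 1) ≠ c (x 4) := by rw [c2]; exact d2
    exact ⟨c1, c2, c3, c4, (mem_mixed' c4).1 (ei_ne v1), (mem_mixed' c4).1 (ei_ne v2),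
      (mem_mixed' c4).1 (ei_ne v3), fun h => ei_sub v4 ((mem_mixed' d1).2 h),
      fun h => ei_sub v5 ((mem_mixed' d2).2 h), fun h => ei_sub v6 ((mem_mixed' d2).2 h)⟩

theorem sumB (H : Finset (Finset (Fin n))) (c : Fin n → Fin 3) :
    ∑ x : Fin 5 → Fin n, pg CertB.pt (fun v => (c v : ℕ)) (ei (mixed H c)) (x 0) (x 1) (x 2) (x 3)
      (x 4) ≤ (plB H c).card := by
  unfold plB
  rw [card_filter]
  refine sum_le_sum fun x _ => ?_
  refine cond_le ?_ ?_
  · exact mul1 (ei_le _ _ _ _) (mul1 (ei_le _ _ _ _) (mul1 (ei_le _ _ _ _) (mul1 (ei_le _ _ _ _)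
      (mul1 (ei_le _ _ _ _) (mul1 (ei_le _ _ _ _) (mul1 (ei_le _ _ _ _) (mul1 (Nat.sub_le _ _)
      (Nat.sub_le _ _))))))))
  · intro hb hv
    obtain ⟨b1, hb⟩ := and_t hb
    obtain ⟨b2, hb⟩ := and_t hb
    obtain ⟨b3, b4⟩ := and_t hb
    obtain ⟨v1, hv⟩ := mul0 hv
    obtain ⟨v2, hv⟩ := mul0 hv
    obtain ⟨v3, hv⟩ := mul0 hv
    obtain ⟨v4, hv⟩ := mul0 hv
    obtain ⟨v5, hv⟩ := mul0 hv
    obtain ⟨v6, hv⟩ := mul0 hv
    obtain ⟨v7, hv⟩ := mul0 hv
    obtain ⟨v8, v9⟩ := mul0 hv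
    have c1 := cN_eq.1 (beq_t b1)
    have c2 := cN_eq.1 (beq_t b2)
    have c3 := cN_eq.1 (beq_t b3)
    have c4 : c (x 2) ≠ c (x 3) := fun h => beq_f b4 (cN_eq.2 h)
    have d1 : c (x 1) ≠ c (x 3) := by rw [c2]; exact c4
    have d0 : c (x 0) ≠ c (x 3) := by rw [c1]; exact d1
    have f2 : c (x 2) ≠ c (x 4) := by rw [← c3]; exact c4
    have f1 : c (x 1) ≠ c (x 4) := by rw [← c3]; exact d1
    have f0 : c (x 0) ≠ c (x 4) := by rw [← c3]; exact d0
    exact ⟨c1, c2, c3, c4, (mem_mixed d0).1 (ei_ne v1), (mem_mixed f0).1 (ei_ne v2),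
      (mem_mixed d0).1 (ei_ne v3), (mem_mixed f0).1 (ei_ne v4), (mem_mixed d1).1 (ei_ne v5),
      (mem_mixed f1).1 (ei_ne v6), (mem_mixed f2).1 (ei_ne v7),
      fun h => ei_sub v8 ((mem_mixed f0).2 h), fun h => ei_sub v9 ((mem_mixed f1).2 h)⟩

theorem sumC (H : Finset (Finset (Fin n))) (c : Fin n → Fin 3) :
    ∑ x : Fin 5 → Fin n, pg CertC.pt (fun v => (c v : ℕ)) (ei (mixed H c)) (x 0) (x 1) (x 2) (x 3)
      (x 4) ≤ (plC H c).card := by
  unfold plC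
  rw [card_filter]
  refine sum_le_sum fun x _ => ?_
  refine cond_le ?_ ?_
  · exact mul1 (ei_le _ _ _ _) (mul1 (ei_le _ _ _ _) (mul1 (ei_le _ _ _ _) (mul1 (ei_le _ _ _ _)
      (mul1 (ei_le _ _ _ _) (mul1 (ei_le _ _ _ _) (mul1 (ei_le _ _ _ _) (mul1 (Nat.sub_le _ _)
      (Nat.sub_le _ _))))))))
  · intro hb hv
    obtain ⟨b1, hb⟩ := and_t hb
    obtain ⟨b2, hb⟩ := and_t hb
    obtain ⟨b3, hb⟩ := and_t hb
    obtain ⟨b4, b5⟩ := and_t hb
    obtain ⟨v1, hv⟩ := mul0 hv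
    obtain ⟨v2, hv⟩ := mul0 hv
    obtain ⟨v3, hv⟩ := mul0 hv
    obtain ⟨v4, hv⟩ := mul0 hv
    obtain ⟨v5, hv⟩ := mul0 hv
    obtain ⟨v6, hv⟩ := mul0 hv
    obtain ⟨v7, hv⟩ := mul0 hv
    obtain ⟨v8, v9⟩ := mul0 hv
    have c1 := cN_eq.1 (beq_t b1)
    have c2 := cN_eq.1 (beq_t b2)
    have d2 : c (x 2) ≠ c (x 3) := fun h => beq_f b3 (cN_eq.2 h)
    have f2 : c (x 2) ≠ c (x 4) := fun h => beq_f b4 (cN_eq.2 h)
    have g : c (x 3) ≠ c (x 4) := fun h => beq_f b5 (cN_eq.2 h)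
    have d1 : c (x 1) ≠ c (x 3) := by rw [c2]; exact d2
    have d0 : c (x 0) ≠ c (x 3) := by rw [c1]; exact d1
    have f1 : c (x 1) ≠ c (x 4) := by rw [c2]; exact f2
    have f0 : c (x 0) ≠ c (x 4) := by rw [c1]; exact f1
    exact ⟨c1, c2, d2, f2, g, (mem_mixed d0).1 (ei_ne v1), (mem_mixed f0).1 (ei_ne v2),
      (mem_mixed d0).1 (ei_ne v3), (mem_mixed f0).1 (ei_ne v4), (mem_mixed f1).1 (ei_ne v5),
      (mem_mixed f1).1 (ei_ne v6), (mem_mixed f2).1 (ei_ne v7),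
      fun h => ei_sub v8 ((mem_mixed f0).2 h), fun h => ei_sub v9 ((mem_mixed d1).2 h)⟩

theorem anyA {H : Finset (Finset (Fin n))} (h3 : ∀ e ∈ H, e.card = 3) (hK : Free H)
    (c : Fin n → Fin 3) :
    54 * (n ^ 2 * (mixed H c).card) ≤ 5 * n ^ 5 + 108 * (plA H c).card := by
  have h := CertA.final (V := Fin n) (fun v => (c v : ℕ)) (fun v => (c v).isLt) (ei (mixed H c))
    (ei_le _) (ei_s1 _) (ei_s2 _) (fun x y z h1 h2 => by
      by_contra hne
      exact not_mono (ei_ne hne) (cN_eq.1 h1) (cN_eq.1 h2)) (hyp h3 hK c)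
  have h1 := sumA H c
  have h2 := six_le (mixed_card3 h3 c)
  rw [Fintype.card_fin] at h
  have h4 := Nat.mul_le_mul_left (n ^ 2) h2
  generalize n ^ 2 * ∑ a, ∑ b, ∑ d, ei (mixed H c) a b d = S at h h4
  have h5 : n ^ 2 * (6 * (mixed H c).card) = 6 * (n ^ 2 * (mixed H c).card) := by ring
  rw [h5] at h4
  omega

theorem anyB {H : Finset (Finset (Fin n))} (h3 : ∀ e ∈ H, e.card = 3) (hK : Free H)
    (c : Fin n → Fin 3) :
    54 * (n ^ 2 * (mixed H c).card) ≤ 5 * n ^ 5 + 54 * (plB H c).card := by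
  have h := CertB.final (V := Fin n) (fun v => (c v : ℕ)) (fun v => (c v).isLt) (ei (mixed H c))
    (ei_le _) (ei_s1 _) (ei_s2 _) (fun x y z h1 h2 => by
      by_contra hne
      exact not_mono (ei_ne hne) (cN_eq.1 h1) (cN_eq.1 h2)) (hyp h3 hK c)
  have h1 := sumB H c
  have h2 := six_le (mixed_card3 h3 c)
  rw [Fintype.card_fin] at h
  have h4 := Nat.mul_le_mul_left (n ^ 2) h2
  generalize n ^ 2 * ∑ a, ∑ b, ∑ d, ei (mixed H c) a b d = S at h h4
  have h5 : n ^ 2 * (6 * (mixed H c).card) = 6 * (n ^ 2 * (mixed H c).card) := by ring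
  rw [h5] at h4
  omega

theorem anyC {H : Finset (Finset (Fin n))} (h3 : ∀ e ∈ H, e.card = 3) (hK : Free H)
    (c : Fin n → Fin 3) :
    54 * (n ^ 2 * (mixed H c).card) ≤ 5 * n ^ 5 + 108 * (plC H c).card := by
  have h := CertC.final (V := Fin n) (fun v => (c v : ℕ)) (fun v => (c v).isLt) (ei (mixed H c))
    (ei_le _) (ei_s1 _) (ei_s2 _) (fun x y z h1 h2 => by
      by_contra hne
      exact not_mono (ei_ne hne) (cN_eq.1 h1) (cN_eq.1 h2)) (hyp h3 hK c)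
  have h1 := sumC H c
  have h2 := six_le (mixed_card3 h3 c)
  rw [Fintype.card_fin] at h
  have h4 := Nat.mul_le_mul_left (n ^ 2) h2
  generalize n ^ 2 * ∑ a, ∑ b, ∑ d, ei (mixed H c) a b d = S at h h4
  have h5 : n ^ 2 * (6 * (mixed H c).card) = 6 * (n ^ 2 * (mixed H c).card) := by ring
  rw [h5] at h4
  omega

end Pool.Agent.V11247.Tri3
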