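import Pool.Agent.V11247.Tri3.CData

set_option autoImplicit false

/-! The check of the certificate. -/

namespace Pool.Agent.V11247.Tri3.Cert

open Pool.Agent.Y439.Col

theorem psd_ok : psdOK rows = true := by decide +kernel

theorem tab_ok : tabOK val rows ((8192 : ℕ) : ℤ) = true := by decide +kernel

theorem good : Good val rows 8192 := good_of tab_ok psd_ok

/-- Test for the pattern on the first four of five vertices: the first two have the same colour,
the third the next colour and the fourth the colour after that, and the triples `012`, `013`,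
`023` are edges. -/
def pt : Pat := fun C0 C1 C2 C3 _ b012 b013 _ b023 _ _ _ _ _ _ =>
  Nat.mul (cond (Nat.beq C0 C1 && (Nat.beq (rc C0 C2) 1 && Nat.beq (rc C0 C3) 2)) 1 0)
    (Nat.mul b012 (Nat.mul b013 b023))

theorem all_ok : chkAll true val 480 (50 * 480 + 75 * 8192) 8752 pt = true := by decide +kernel

theorem final {V : Type*} [Fintype V] (c : V → ℕ) (hc : ∀ x, c x < 3) (e : V → V → V → ℕ)
    (e1 : ∀ x y z, e x y z ≤ 1)
    (s1 : ∀ x y z, e x y z = e y x z) (s2 : ∀ x y z, e x y z = e x z y)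
    (hin : ∀ x y z, c x = c y → c y = c z → e x y z = 0)
    (hK : ∀ x y z w, e x y z = 0 ∨ e x y w = 0 ∨ e x z w = 0 ∨ e y z w = 0) :
    90 * 480 * (Fintype.card V ^ 2 * ∑ a, ∑ b, ∑ d, e a b d) ≤
      50 * 480 * Fintype.card V ^ 5 +
        120 * 8752 * ∑ x : Fin 5 → V, pg pt c e (x 0) (x 1) (x 2) (x 3) (x 4) :=
  main good true 480 8752 pt (fun _ _ _ _ _ h01 h12 h23 h34 h4 => chk_of_all all_ok _ _ _ _ _
    h01 h12 h23 h34 h4) c hc e e1 s1 s2 (fun _ => hin) hK

end Pool.Agent.V11247.Tri3.Cert
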