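import Pool.Agent.V11247.Tri3.Tot

/-! The inequality for a 3-graph and three classes of the same size. -/

set_option autoImplicit false

open Finset

namespace Pool.Agent.V11247.Tri3

variable {α : Type*} [DecidableEq α]

/-- the indicator of a 3-graph -/
def ind (H : Finset (Finset α)) (x y z : α) : Bool := decide (({x, y, z} : Finset α) ∈ H)

theorem ind1 (H : Finset (Finset α)) (x y z : α) : ind H x y z = ind H y x z := by
  unfold ind
  rw [insert_comm]

theorem ind2 (H : Finset (Finset α)) (x y z : α) : ind H x y z = ind H x z y := by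
  unfold ind
  rw [pair_comm]

theorem N_ind (H : Finset (Finset α)) (x y z : α) :
    N (ind H) x y z = if ({x, y, z} : Finset α) ∈ H then 1 else 0 := by
  unfold N ind
  split_ifs with h <;> simp [h]

/-- the edges with two vertices in `A` and one in `B` -/
def E (H : Finset (Finset α)) (A B : Finset α) : Finset (Finset α) :=
  H.filter fun e => ∃ x ∈ A, ∃ y ∈ A, ∃ z ∈ B, x ≠ y ∧ e = {x, y, z}

/-- the transversal edges -/
def Tr (H : Finset (Finset α)) (A B C : Finset α) : Finset (Finset α) :=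
  H.filter fun e => ∃ x ∈ A, ∃ y ∈ B, ∃ z ∈ C, e = {x, y, z}

theorem two_E (H : Finset (Finset α)) (A B : Finset α) : 2 * (E H A B).card ≤ W (ind H) A B := by
  set U : Finset ((α × α) × α) := (A.offDiag ×ˢ B).filter
    (fun t => ({t.1.1, t.1.2, t.2} : Finset α) ∈ H) with hU
  have hW : W (ind H) A B = U.card := by
    unfold W
    rw [hU, card_filter, sum_product]
    refine sum_congr rfl fun p _ => sum_congr rfl fun y _ => ?_
    rw [N_ind]
  have hf : ∀ t ∈ U, (fun t : (α × α) × α => ({t.1.1, t.1.2, t.2} : Finset α)) t ∈ E H A B := by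
    intro t ht
    rw [hU, mem_filter, mem_product, mem_offDiag] at ht
    unfold E
    rw [mem_filter]
    exact ⟨ht.2, t.1.1, ht.1.1.1, t.1.2, ht.1.1.2.1, t.2, ht.1.2, ht.1.1.2.2, rfl⟩
  rw [hW, card_eq_sum_card_fiberwise hf, mul_comm, ← smul_eq_mul, ← sum_const]
  refine sum_le_sum fun e he => ?_
  unfold E at he
  rw [mem_filter] at he
  obtain ⟨heH, x, hx, y, hy, z, hz, hxy, rfl⟩ := he
  have h2 : ({((x, y), z), ((y, x), z)} : Finset ((α × α) × α)).card = 2 := by
    rw [card_pair]
    intro e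
    rw [Prod.mk.injEq, Prod.mk.injEq] at e
    exact hxy e.1.1
  rw [← h2]
  refine card_le_card ?_
  intro t ht
  rw [mem_insert, mem_singleton] at ht
  rcases ht with rfl | rfl
  · rw [mem_filter, hU, mem_filter, mem_product, mem_offDiag]
    exact ⟨⟨⟨⟨hx, hy, hxy⟩, hz⟩, heH⟩, rfl⟩
  · rw [mem_filter, hU, mem_filter, mem_product, mem_offDiag]
    have e1 : ({y, x, z} : Finset α) = {x, y, z} := insert_comm _ _ _
    exact ⟨⟨⟨⟨hy, hx, hxy.symm⟩, hz⟩, by simpa only [e1] using heH⟩, e1⟩

theorem Tr_le (H : Finset (Finset α)) (A B C : Finset α) :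
    (Tr H A B C).card ≤ T (ind H) A B C := by
  set U : Finset (α × α × α) := (A ×ˢ B ×ˢ C).filter
    (fun t => ({t.1, t.2.1, t.2.2} : Finset α) ∈ H) with hU
  have hW : T (ind H) A B C = U.card := by
    unfold T
    rw [hU, card_filter, sum_product]
    refine sum_congr rfl fun x _ => ?_
    rw [sum_product]
    refine sum_congr rfl fun y _ => sum_congr rfl fun z _ => ?_
    rw [N_ind]
  rw [hW]
  refine card_le_card_of_surjOn (fun t : α × α × α => ({t.1, t.2.1, t.2.2} : Finset α)) ?_
  intro e he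
  rw [mem_coe] at he
  unfold Tr at he
  rw [mem_filter] at he
  obtain ⟨heH, x, hx, y, hy, z, hz, rfl⟩ := he
  refine ⟨(x, y, z), ?_, rfl⟩
  rw [mem_coe, hU, mem_filter, mem_product, mem_product]
  exact ⟨⟨hx, hy, hz⟩, heH⟩

theorem T_le (H : Finset (Finset α)) (A B C : Finset α) :
    T (ind H) A B C ≤ A.card * (B.card * C.card) := by
  unfold T
  calc ∑ x ∈ A, ∑ y ∈ B, ∑ z ∈ C, N (ind H) x y z ≤ ∑ x ∈ A, ∑ y ∈ B, ∑ z ∈ C, 1 := by
        refine sum_le_sum fun x _ => sum_le_sum fun y _ => sum_le_sum fun z _ => ?_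
        rw [N_ind]
        split_ifs <;> omega
    _ = _ := by simp

/-- no two plus two vertices span all four triples -/
def NoFull (H : Finset (Finset α)) (A B : Finset α) : Prop :=
  ∀ x ∈ A, ∀ x' ∈ A, x ≠ x' → ∀ y ∈ B, ∀ y' ∈ B, y ≠ y' →
    ¬ (({x, x', y} : Finset α) ∈ H ∧ ({x, x', y'} : Finset α) ∈ H ∧
      ({y, y', x} : Finset α) ∈ H ∧ ({y, y', x'} : Finset α) ∈ H)

theorem noFull_ind {H : Finset (Finset α)} {A B : Finset α} (h : NoFull H A B) :
    ∀ x ∈ A, ∀ x' ∈ A, x ≠ x' → ∀ y ∈ B, ∀ y' ∈ B, y ≠ y' →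
      (ind H x x' y && ind H x x' y' && ind H y y' x && ind H y y' x') = false := by
  intro x hx x' hx' hxx y hy y' hy' hyy
  rw [Bool.eq_false_iff]
  intro hc
  simp only [ind, Bool.and_eq_true, decide_eq_true_eq] at hc
  exact h x hx x' hx' hxx y hy y' hy' hyy ⟨hc.1.1.1, hc.1.1.2, hc.1.2, hc.2⟩

/-- **Three classes with `m` vertices each.** -/
theorem main (H : Finset (Finset α)) (A B C : Finset α) (m : ℕ) (hA : A.card = m)
    (hB : B.card = m) (hC : C.card = m) (kAB : NoFull H A B) (kAC : NoFull H A C)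
    (kBC : NoFull H B C) (M : Finset (Finset α))
    (hM : M ⊆ E H A B ∪ E H A C ∪ E H B A ∪ E H B C ∪ E H C A ∪ E H C B ∪ Tr H A B C) :
    6 * m * M.card + 9 * m ^ 3 ≤ 15 * m ^ 4 +
      4 * (Bad (ind H) B A C + Bad (ind H) A B C + Bad (ind H) C A B) := by
  have htot := total (ind1 H) (ind2 H) A B C (noFull_ind kAB) (noFull_ind kAC) (noFull_ind kBC)
  have hMc : M.card ≤ (E H A B).card + (E H A C).card + (E H B A).card + (E H B C).card +
      (E H C A).card + (E H C B).card + (Tr H A B C).card := by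
    refine (card_le_card hM).trans ?_
    have u1 := card_union_le (E H A B ∪ E H A C ∪ E H B A ∪ E H B C ∪ E H C A ∪ E H C B)
      (Tr H A B C)
    have u2 := card_union_le (E H A B ∪ E H A C ∪ E H B A ∪ E H B C ∪ E H C A) (E H C B)
    have u3 := card_union_le (E H A B ∪ E H A C ∪ E H B A ∪ E H B C) (E H C A)
    have u4 := card_union_le (E H A B ∪ E H A C ∪ E H B A) (E H B C)
    have u5 := card_union_le (E H A B ∪ E H A C) (E H B A)
    have u6 := card_union_le (E H A B) (E H A C)
    omega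
  have w1 := two_E H A B
  have w2 := two_E H A C
  have w3 := two_E H B A
  have w4 := two_E H B C
  have w5 := two_E H C A
  have w6 := two_E H C B
  have w7 := Tr_le H A B C
  have w8 := T_le H A B C
  rw [hA, hB, hC] at w8
  rw [hA, hB, hC] at htot
  set b : ℕ := Bad (ind H) B A C + Bad (ind H) A B C + Bad (ind H) C A B with hb
  set w : ℕ := W (ind H) A B + W (ind H) A C + W (ind H) B A + W (ind H) B C + W (ind H) C A +
    W (ind H) C B with hw
  set t : ℕ := T (ind H) A B C with ht
  have hM2 : 2 * M.card ≤ w + 2 * t := by omega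
  rcases Nat.lt_or_ge m 2 with hm | hm
  · -- at most one vertex in each class
    have hoff : ∀ X : Finset α, X.card = m → X.offDiag = ∅ := by
      intro X hX
      rw [← card_eq_zero, card_off, hX]
      interval_cases m <;> rfl
    have hw0 : w = 0 := by
      rw [hw]
      unfold W
      rw [hoff A hA, hoff B hB, hoff C hC]
      simp
    have h1 : M.card ≤ m * (m * m) := by omega
    interval_cases m
    · omega
    · omega
  · obtain ⟨k, rfl⟩ : ∃ k, m = k + 1 := ⟨m - 1, by omega⟩
    have hk : 0 < k := by omega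
    rw [Nat.add_sub_cancel] at htot
    have h1 : 4 * k ^ 2 * (3 * (k + 1) * w + 6 * k * t) ≤
        4 * k ^ 2 * (15 * (k + 1) ^ 3 * k + 4 * b) := by
      rw [hw, hb]
      nlinarith [htot]
    have h2 : 3 * (k + 1) * w + 6 * k * t ≤ 15 * (k + 1) ^ 3 * k + 4 * b :=
      Nat.le_of_mul_le_mul_left h1 (by positivity)
    have h3 : 3 * (k + 1) * (2 * M.card) ≤ 3 * (k + 1) * (w + 2 * t) :=
      Nat.mul_le_mul_left _ hM2
    nlinarith [h2, h3, w8]

end Pool.Agent.V11247.Tri3
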