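import Pool.Agent.V11247.Tri3.Shp

/-! The same for coverings: every four vertices contain a triple of `T`. -/

set_option autoImplicit false

open Finset

namespace Pool.Agent.V11247.Tri3

variable {n : ℕ}

/-- the triples that are not in `T` -/
def comp (T : Finset (Finset (Fin n))) : Finset (Finset (Fin n)) :=
  (univ.powersetCard 3) \ T

theorem mem_comp {T : Finset (Finset (Fin n))} {e : Finset (Fin n)} :
    e ∈ comp T ↔ e.card = 3 ∧ e ∉ T := by
  unfold comp
  rw [mem_sdiff, mem_powersetCard]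
  exact ⟨fun h => ⟨h.1.2, h.2⟩, fun h => ⟨⟨subset_univ _, h.1⟩, h.2⟩⟩

theorem comp_card3 (T : Finset (Finset (Fin n))) : ∀ e ∈ comp T, e.card = 3 := fun _ he =>
  (mem_comp.1 he).1

theorem comp_free {T : Finset (Finset (Fin n))} (h3 : ∀ e ∈ T, e.card = 3)
    (hT : ∀ S : Finset (Fin n), S.card = 4 → ∃ e ∈ T, e ⊆ S) : Free (comp T) := by
  intro S hS
  obtain ⟨e, heT, heS⟩ := hT S hS
  exact ⟨e, heS, h3 e heT, fun h => (mem_comp.1 h).2 heT⟩

theorem comp_card {T : Finset (Finset (Fin n))} (h3 : ∀ e ∈ T, e.card = 3) :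
    T.card + (comp T).card = n.choose 3 := by
  have hs : T ⊆ (univ : Finset (Fin n)).powersetCard 3 := fun e he =>
    mem_powersetCard.2 ⟨subset_univ _, h3 e he⟩
  unfold comp
  rw [card_sdiff_of_subset hs, card_powersetCard, card_univ, Fintype.card_fin]
  have := card_le_card hs
  rw [card_powersetCard, card_univ, Fintype.card_fin] at this
  omega

/-- the triples inside the classes that are not in `T` -/
def inner (T : Finset (Finset (Fin n))) (c : Fin n → Fin 3) : Finset (Finset (Fin n)) :=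
  univ.filter fun e => e.card = 3 ∧ e ∉ T ∧ ∀ x ∈ e, ∀ y ∈ e, c x = c y

/-- the sets of four vertices that contain exactly one triple of `T`, and this triple meets all
three classes -/
def single (T : Finset (Finset (Fin n))) (c : Fin n → Fin 3) : Finset (Finset (Fin n)) :=
  univ.filter fun S => S.card = 4 ∧ ∃ v ∈ S, (∀ u ∈ S, S.erase u ∈ T ↔ u = v) ∧
    ∀ k : Fin 3, ∃ u ∈ S.erase v, c u = k

theorem badS_comp (T : Finset (Finset (Fin n))) (c : Fin n → Fin 3) :
    badS (comp T) c = single T c := by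
  unfold badS single
  ext S
  rw [mem_filter, mem_filter]
  have key : ∀ v : Fin n, S.card = 4 →
      ((∀ u ∈ S, S.erase u ∈ comp T ↔ u ≠ v) ↔ ∀ u ∈ S, S.erase u ∈ T ↔ u = v) := by
    intro v hS
    refine forall₂_congr fun u hu => ?_
    rw [mem_comp, card_erase_of_mem hu, hS]
    constructor
    · intro h
      by_cases hc : S.erase u ∈ T
      · exact ⟨fun _ => by
          by_contra hne
          exact (h.2 hne).2 hc, fun _ => hc⟩
      · refine ⟨fun h' => absurd h' hc, fun h' => ?_⟩
        exact absurd h' (h.1 ⟨rfl, hc⟩)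
    · intro h
      constructor
      · rintro ⟨-, hc⟩ hne
        exact hc (h.2 hne)
      · intro hne
        exact ⟨rfl, fun hc => hne (h.1 hc)⟩
  constructor
  · rintro ⟨h0, h1, v, hv, h2, h3⟩
    exact ⟨h0, h1, v, hv, (key v h1).1 h2, h3⟩
  · rintro ⟨h0, h1, v, hv, h2, h3⟩
    exact ⟨h0, h1, v, hv, (key v h1).2 h2, h3⟩

theorem mixed_comp {T : Finset (Finset (Fin n))} (h3 : ∀ e ∈ T, e.card = 3) (c : Fin n → Fin 3) :
    T.card + (inner T c).card + (mixed (comp T) c).card = n.choose 3 := by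
  have h := comp_card h3
  have h1 := card_filter_add_card_filter_not (s := comp T) (fun e => ∃ x ∈ e, ∃ y ∈ e, c x ≠ c y)
  have h2 : ((comp T).filter fun e => ¬ ∃ x ∈ e, ∃ y ∈ e, c x ≠ c y) = inner T c := by
    ext e
    unfold inner
    rw [mem_filter, mem_filter, mem_comp]
    constructor
    · rintro ⟨⟨h4, h5⟩, h6⟩
      push Not at h6
      exact ⟨mem_univ _, h4, h5, h6⟩
    · rintro ⟨-, h4, h5, h6⟩
      refine ⟨⟨h4, h5⟩, ?_⟩
      push Not
      exact h6
  rw [h2] at h1
  unfold mixed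
  omega

/-- `6` times the number of triples of `3 s` vertices -/
theorem six_choose (s : ℕ) : 2 * (3 * s).choose 3 = 9 * s ^ 3 + 2 * s - 9 * s ^ 2 := by
  have h : ((2 * (3 * s).choose 3 + 9 * s ^ 2 : ℕ) : ℤ) = ((9 * s ^ 3 + 2 * s : ℕ) : ℤ) := by
    have h1 : (((3 * s).choose 3 : ℕ) : ℚ) = (3 * s) * (3 * s - 1) * (3 * s - 2) / 6 := by
      rcases s with _ | s
      · norm_num
      · have h2 : (3 * (s + 1)).choose 3 * 6 = 3 * (s + 1) * (3 * (s + 1) - 1) * (3 * (s + 1) - 2) := by
          have h3 := Nat.descFactorial_eq_factorial_mul_choose (3 * (s + 1)) 3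
          have h4 : (3 * (s + 1)).descFactorial 3 =
              (3 * (s + 1) - 2) * ((3 * (s + 1) - 1) * (3 * (s + 1))) := by
            simp [Nat.descFactorial]
          rw [h4] at h3
          have h5 : Nat.factorial 3 = 6 := rfl
          rw [h5] at h3
          linarith
        have h6 : 3 * (s + 1) - 1 = 3 * s + 2 := by omega
        have h7 : 3 * (s + 1) - 2 = 3 * s + 1 := by omega
        rw [h6, h7] at h2
        have h8 : (((3 * (s + 1)).choose 3 : ℕ) : ℚ) * 6 =
            3 * (s + 1) * (3 * s + 2) * (3 * s + 1) := by exact_mod_cast h2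
        push_cast
        linarith
    have h2 : (2 * ((3 * s).choose 3 : ℚ) + 9 * s ^ 2) = 9 * s ^ 3 + 2 * s := by
      rw [h1]
      ring
    exact_mod_cast h2
  have h' : 2 * (3 * s).choose 3 + 9 * s ^ 2 = 9 * s ^ 3 + 2 * s := by exact_mod_cast h
  omega

/-- **Coverings of `3 s` vertices with three classes of `s` vertices.** -/
theorem cov_main {T : Finset (Finset (Fin n))} (h3 : ∀ e ∈ T, e.card = 3)
    (hT : ∀ S : Finset (Fin n), S.card = 4 → ∃ e ∈ T, e ⊆ S) (c : Fin n → Fin 3) (s : ℕ)
    (hc : ∀ k, (cls c k).card = s) :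
    3 * s * (s * (s - 1) * (2 * s - 1)) ≤
      3 * s * (T.card + (inner T c).card) + 2 * (single T c).card := by
  have hn : n = 3 * s := by
    have h := card_eq_sum_card_fiberwise (s := (univ : Finset (Fin n))) (f := c) (t := univ)
      fun _ _ => mem_coe.2 (mem_univ _)
    rw [card_univ, Fintype.card_fin, Fin.sum_univ_three] at h
    have h0 : (univ.filter fun x => c x = 0).card = s := hc 0
    have h1 : (univ.filter fun x => c x = 1).card = s := hc 1
    have h2 : (univ.filter fun x => c x = 2).card = s := hc 2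
    rw [h0, h1, h2] at h
    omega
  have h := fin_main (comp_card3 T) (comp_free h3 hT) c s hc
  rw [badS_comp] at h
  have h1 := mixed_comp h3 c
  have h2 := six_choose s
  rw [← hn] at h2
  rcases s with _ | s
  · simp
  · have e1 : s + 1 - 1 = s := by omega
    have e2 : 2 * (s + 1) - 1 = 2 * s + 1 := by omega
    rw [e1, e2]
    set M := (mixed (comp T) c).card
    set I := (inner T c).card
    set N := (single T c).card
    have h2' : 2 * n.choose 3 + 9 * (s + 1) ^ 2 = 9 * (s + 1) ^ 3 + 2 * (s + 1) := by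
      have : 9 * (s + 1) ^ 2 ≤ 9 * (s + 1) ^ 3 := by
        have : (s + 1) ^ 2 ≤ (s + 1) ^ 3 := Nat.pow_le_pow_right (by omega) (by omega)
        omega
      omega
    have h3' : 2 * (3 * (s + 1) * ((s + 1) * s * (2 * s + 1))) + 6 * (s + 1) * M + 9 * (s + 1) ^ 3 ≤
        2 * (3 * (s + 1) * (T.card + I) + 2 * N) + 6 * (s + 1) * M + 9 * (s + 1) ^ 3 := by
      have h4 : 2 * (3 * (s + 1) * (T.card + I)) + 6 * (s + 1) * M =
          3 * (s + 1) * (2 * n.choose 3) := by
        rw [← h1]; ring
      have h5 : 3 * (s + 1) * (2 * n.choose 3 + 9 * (s + 1) ^ 2) =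
          3 * (s + 1) * (9 * (s + 1) ^ 3 + 2 * (s + 1)) := by rw [h2']
      nlinarith [h, h4, h5]
    omega

end Pool.Agent.V11247.Tri3
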