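import Pool.Agent.V11247.Tri3.Shp2

/-! The three configurations for coverings. -/

set_option autoImplicit false

open Finset

namespace Pool.Agent.V11247.Tri3

variable {n : ℕ}

def cfA (T : Finset (Finset (Fin n))) (c : Fin n → Fin 3) : Finset (Fin 5 → Fin n) :=
  univ.filter fun x => Function.Injective x ∧
    (c (x 0) = c (x 1) ∧ c (x 1) = c (x 2) ∧ c (x 2) = c (x 3) ∧ c (x 3) ≠ c (x 4)) ∧
    ({x 0, x 3, x 4} ∉ T ∧ {x 1, x 3, x 4} ∉ T ∧ {x 2, x 3, x 4} ∉ T) ∧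
    ({x 0, x 1, x 4} ∈ T ∧ {x 0, x 2, x 4} ∈ T ∧ {x 1, x 2, x 4} ∈ T)

def cfB (T : Finset (Finset (Fin n))) (c : Fin n → Fin 3) : Finset (Fin 5 → Fin n) :=
  univ.filter fun x => Function.Injective x ∧
    (c (x 0) = c (x 1) ∧ c (x 1) = c (x 2) ∧ c (x 3) = c (x 4) ∧ c (x 2) ≠ c (x 3)) ∧
    ({x 0, x 1, x 3} ∉ T ∧ {x 0, x 1, x 4} ∉ T ∧ {x 0, x 2, x 3} ∉ T ∧ {x 0, x 2, x 4} ∉ T ∧
      {x 1, x 2, x 3} ∉ T ∧ {x 1, x 2, x 4} ∉ T ∧ {x 2, x 3, x 4} ∉ T) ∧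
    ({x 0, x 3, x 4} ∈ T ∧ {x 1, x 3, x 4} ∈ T)

def cfC (T : Finset (Finset (Fin n))) (c : Fin n → Fin 3) : Finset (Fin 5 → Fin n) :=
  univ.filter fun x => Function.Injective x ∧
    (c (x 0) = c (x 1) ∧ c (x 1) = c (x 2) ∧ c (x 2) ≠ c (x 3) ∧ c (x 2) ≠ c (x 4) ∧
      c (x 3) ≠ c (x 4)) ∧
    ({x 0, x 1, x 3} ∉ T ∧ {x 0, x 1, x 4} ∉ T ∧ {x 0, x 2, x 3} ∉ T ∧ {x 0, x 2, x 4} ∉ T ∧
      {x 1, x 2, x 4} ∉ T ∧ {x 1, x 3, x 4} ∉ T ∧ {x 2, x 3, x 4} ∉ T) ∧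
    ({x 0, x 3, x 4} ∈ T ∧ {x 1, x 2, x 3} ∈ T)

theorem ci {T : Finset (Finset (Fin n))} {x : Fin 5 → Fin n} (hx : Function.Injective x)
    {i j k : Fin 5} (h1 : i ≠ j) (h2 : i ≠ k) (h3 : j ≠ k) :
    ({x i, x j, x k} : Finset (Fin n)) ∈ comp T ↔ ({x i, x j, x k} : Finset (Fin n)) ∉ T := by
  rw [mem_comp]
  exact ⟨fun h => h.2, fun h => ⟨card_three (hx.ne h1) (hx.ne h2) (hx.ne h3), h⟩⟩

theorem cn {T : Finset (Finset (Fin n))} {x : Fin 5 → Fin n} (hx : Function.Injective x)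
    {i j k : Fin 5} (h1 : i ≠ j) (h2 : i ≠ k) (h3 : j ≠ k) :
    ({x i, x j, x k} : Finset (Fin n)) ∉ comp T ↔ ({x i, x j, x k} : Finset (Fin n)) ∈ T := by
  rw [ci hx h1 h2 h3, not_not]

theorem cfA_eq (T : Finset (Finset (Fin n))) (c : Fin n → Fin 3) : cpA (comp T) c = cfA T c := by
  unfold cpA cfA
  refine filter_congr fun x _ => and_congr_right fun hx => and_congr_right fun _ =>
    and_congr ?_ ?_
  · refine and_congr ?_ (and_congr ?_ ?_) <;> exact ci hx (by decide) (by decide) (by decide)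
  · refine and_congr ?_ (and_congr ?_ ?_) <;> exact cn hx (by decide) (by decide) (by decide)

theorem cfB_eq (T : Finset (Finset (Fin n))) (c : Fin n → Fin 3) : cpB (comp T) c = cfB T c := by
  unfold cpB cfB
  refine filter_congr fun x _ => and_congr_right fun hx => and_congr_right fun _ =>
    and_congr ?_ ?_
  · refine and_congr ?_ (and_congr ?_ (and_congr ?_ (and_congr ?_ (and_congr ?_
      (and_congr ?_ ?_))))) <;> exact ci hx (by decide) (by decide) (by decide)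
  · refine and_congr ?_ ?_ <;> exact cn hx (by decide) (by decide) (by decide)

theorem cfC_eq (T : Finset (Finset (Fin n))) (c : Fin n → Fin 3) : cpC (comp T) c = cfC T c := by
  unfold cpC cfC
  refine filter_congr fun x _ => and_congr_right fun hx => and_congr_right fun _ =>
    and_congr ?_ ?_
  · refine and_congr ?_ (and_congr ?_ (and_congr ?_ (and_congr ?_ (and_congr ?_
      (and_congr ?_ ?_))))) <;> exact ci hx (by decide) (by decide) (by decide)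
  · refine and_congr ?_ ?_ <;> exact cn hx (by decide) (by decide) (by decide)

theorem cov_any {T : Finset (Finset (Fin n))} (hn : 1 ≤ n) (h3 : ∀ e ∈ T, e.card = 3)
    (hT : ∀ S : Finset (Fin n), S.card = 4 → ∃ e ∈ T, e ⊆ S) (c : Fin n → Fin 3) :
    (n.choose 3 : ℝ) - 5 / 54 * n ^ 3 - 2 * ((cfA T c).card / n ^ 2) - 6 * n ^ 2 ≤
        (T.card : ℝ) + (inner T c).card ∧
      (n.choose 3 : ℝ) - 5 / 54 * n ^ 3 - (cfB T c).card / n ^ 2 ≤
        (T.card : ℝ) + (inner T c).card ∧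
      (n.choose 3 : ℝ) - 5 / 54 * n ^ 3 - 2 * ((cfC T c).card / n ^ 2) ≤
        (T.card : ℝ) + (inner T c).card := by
  have h : ((T.card + (inner T c).card + (mixed (comp T) c).card : ℕ) : ℝ) = n.choose 3 := by
    exact_mod_cast mixed_comp h3 c
  push_cast at h
  have hA := realA hn (comp_card3 T) (comp_free h3 hT) c
  have hB := realB hn (comp_card3 T) (comp_free h3 hT) c
  have hC := realC hn (comp_card3 T) (comp_free h3 hT) c
  rw [cfA_eq] at hA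
  rw [cfB_eq] at hB
  rw [cfC_eq] at hC
  refine ⟨?_, ?_, ?_⟩ <;> linarith

theorem choose_ge' (n : ℕ) : (n : ℝ) ^ 3 - 3 * (n : ℝ) ^ 2 ≤ 6 * (n.choose 3 : ℝ) := by
  rcases Nat.lt_or_ge n 3 with h | h
  · interval_cases n <;> norm_num [Nat.choose]
  · have h1 := Nat.descFactorial_eq_factorial_mul_choose n 3
    have h2 : n.descFactorial 3 = (n - 2) * ((n - 1) * n) := by simp [Nat.descFactorial]
    rw [h2] at h1
    have h3 : Nat.factorial 3 = 6 := rfl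
    rw [h3] at h1
    have h4 : (((n - 2) * ((n - 1) * n) : ℕ) : ℝ) = ((n : ℝ) - 2) * (((n : ℝ) - 1) * n) := by
      rw [Nat.cast_mul, Nat.cast_mul, Nat.cast_sub (by omega), Nat.cast_sub (by omega)]
      norm_num
    have h5 : (((n - 2) * ((n - 1) * n) : ℕ) : ℝ) = 6 * (n.choose 3 : ℝ) := by
      exact_mod_cast h1
    rw [← h5, h4]
    nlinarith [(Nat.cast_nonneg n : (0 : ℝ) ≤ n)]

/-- the asymptotic form -/
theorem eps_form {ε : ℝ} (hε : 0 < ε) {n : ℕ} (hn : max 6 ⌈700 / ε⌉₊ ≤ n) {Y D P : ℝ}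
    (hD : D ≤ ε / 100 * (n : ℝ) ^ 3) (hP : P ≤ ε / 100 * (n : ℝ) ^ 5)
    (h : (n.choose 3 : ℝ) - 5 / 54 * n ^ 3 - 2 * (P / n ^ 2) - 6 * n ^ 2 ≤ Y + D) :
    (4 / 9 - ε) * (n.choose 3 : ℝ) ≤ Y := by
  have hn6 : (6 : ℝ) ≤ n := by exact_mod_cast (le_max_left _ _).trans hn
  have hne : 700 / ε ≤ n := (Nat.le_ceil _).trans (by exact_mod_cast (le_max_right _ _).trans hn)
  have hne' : 700 ≤ ε * n := by
    rw [div_le_iff₀ hε] at hne
    linarith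
  have hn0 : (0 : ℝ) < n := by linarith
  have c1 := choose_ge' n
  set X : ℝ := (n.choose 3 : ℝ) with hX
  have c3 : (n : ℝ) ^ 3 / 2 ≤ 6 * X := by
    have : 3 * (n : ℝ) ^ 2 ≤ (n : ℝ) ^ 3 / 2 := by
      have e : (n : ℝ) ^ 3 = n * (n : ℝ) ^ 2 := by ring
      rw [e]
      nlinarith [sq_nonneg (n : ℝ)]
    linarith
  have c4 : 700 * (n : ℝ) ^ 2 ≤ ε * (n : ℝ) ^ 3 := by
    have e : ε * (n : ℝ) ^ 3 = (ε * n) * (n : ℝ) ^ 2 := by ring
    rw [e]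
    exact mul_le_mul_of_nonneg_right hne' (by positivity)
  have c5 : P / (n : ℝ) ^ 2 ≤ ε / 100 * (n : ℝ) ^ 3 := by
    rw [div_le_iff₀ (by positivity)]
    calc P ≤ ε / 100 * (n : ℝ) ^ 5 := hP
      _ = ε / 100 * (n : ℝ) ^ 3 * (n : ℝ) ^ 2 := by ring
  have c7 : ε * ((n : ℝ) ^ 3 / 2) ≤ ε * (6 * X) := mul_le_mul_of_nonneg_left c3 hε.le
  have c8 : 0 ≤ ε * (n : ℝ) ^ 3 := by positivity
  linarith

end Pool.Agent.V11247.Tri3
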