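import Pool.Agent.V11247.Tri3.Cnt

/-! Three classes of a colouring with three colours. -/

set_option autoImplicit false

open Finset

namespace Pool.Agent.V11247.Tri3

theorem mem_E {α : Type*} [DecidableEq α] {H : Finset (Finset α)} {A B : Finset α}
    {e : Finset α} (he : e ∈ H) (h : ∃ x ∈ A, ∃ y ∈ A, ∃ z ∈ B, x ≠ y ∧ e = {x, y, z}) :
    e ∈ E H A B := by
  unfold E
  rw [mem_filter]
  exact ⟨he, h⟩

theorem mem_Tr {α : Type*} [DecidableEq α] {H : Finset (Finset α)} {A B C : Finset α}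
    {e : Finset α} (he : e ∈ H) (h : ∃ x ∈ A, ∃ y ∈ B, ∃ z ∈ C, e = {x, y, z}) :
    e ∈ Tr H A B C := by
  unfold Tr
  rw [mem_filter]
  exact ⟨he, h⟩

variable {n : ℕ}

/-- the vertices of colour `k` -/
def cls (c : Fin n → Fin 3) (k : Fin 3) : Finset (Fin n) := univ.filter fun x => c x = k

theorem mem_cls {c : Fin n → Fin 3} {k : Fin 3} {x : Fin n} : x ∈ cls c k ↔ c x = k := by
  unfold cls
  rw [mem_filter]
  exact ⟨fun h => h.2, fun h => ⟨mem_univ _, h⟩⟩

/-- the members of `H` that meet two classes -/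
def mixed (H : Finset (Finset (Fin n))) (c : Fin n → Fin 3) : Finset (Finset (Fin n)) :=
  H.filter fun e => ∃ x ∈ e, ∃ y ∈ e, c x ≠ c y

/-- no four vertices span all four triples -/
def Free (H : Finset (Finset (Fin n))) : Prop :=
  ∀ S : Finset (Fin n), S.card = 4 → ∃ e ⊆ S, e.card = 3 ∧ e ∉ H

theorem erase_of {S e : Finset (Fin n)} (hS : S.card = 4) (he : e.card = 3) (hs : e ⊆ S) :
    ∃ v ∈ S, e = S.erase v := by
  have h1 : (S \ e).card = 1 := by
    rw [card_sdiff_of_subset hs, hS, he]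
  obtain ⟨v, hv⟩ := card_eq_one.1 h1
  have hvS : v ∈ S \ e := by rw [hv]; exact mem_singleton_self v
  refine ⟨v, (mem_sdiff.1 hvS).1, ?_⟩
  rw [← sdiff_singleton_eq_erase, ← hv, Finset.sdiff_sdiff_eq_self hs]

theorem card_four {x y z w : Fin n} (h1 : x ≠ y) (h2 : x ≠ z) (h3 : x ≠ w) (h4 : y ≠ z)
    (h5 : y ≠ w) (h6 : z ≠ w) : ({x, y, z, w} : Finset (Fin n)).card = 4 := by
  rw [card_insert_of_notMem, card_insert_of_notMem, card_insert_of_notMem, card_singleton]
  · rw [mem_singleton]; exact h6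
  · rw [mem_insert, mem_singleton]; rintro (h | h)
    · exact h4 h
    · exact h5 h
  · rw [mem_insert, mem_insert, mem_singleton]; rintro (h | h | h)
    · exact h1 h
    · exact h2 h
    · exact h3 h

theorem card_three {x y z : Fin n} (h1 : x ≠ y) (h2 : x ≠ z) (h4 : y ≠ z) :
    ({x, y, z} : Finset (Fin n)).card = 3 := by
  rw [card_insert_of_notMem, card_insert_of_notMem, card_singleton]
  · rw [mem_singleton]; exact h4
  · rw [mem_insert, mem_singleton]; rintro (h | h)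
    · exact h1 h
    · exact h2 h

theorem er1 {x y z w : Fin n} (h1 : x ≠ y) (h2 : x ≠ z) (h3 : x ≠ w) :
    ({x, y, z, w} : Finset (Fin n)).erase x = {y, z, w} := by
  ext t
  simp only [mem_erase, mem_insert, mem_singleton]
  constructor
  · rintro ⟨h, rfl | rfl | rfl | rfl⟩
    · exact absurd rfl h
    · exact Or.inl rfl
    · exact Or.inr (Or.inl rfl)
    · exact Or.inr (Or.inr rfl)
  · rintro (rfl | rfl | rfl)
    · exact ⟨h1.symm, Or.inr (Or.inl rfl)⟩
    · exact ⟨h2.symm, Or.inr (Or.inr (Or.inl rfl))⟩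
    · exact ⟨h3.symm, Or.inr (Or.inr (Or.inr rfl))⟩

theorem er2 {x y z w : Fin n} (h1 : x ≠ y) (h4 : y ≠ z) (h5 : y ≠ w) :
    ({x, y, z, w} : Finset (Fin n)).erase y = {x, z, w} := by
  rw [insert_comm]
  exact er1 h1.symm h4 h5

theorem er3 {x y z w : Fin n} (h2 : x ≠ z) (h4 : y ≠ z) (h6 : z ≠ w) :
    ({x, y, z, w} : Finset (Fin n)).erase z = {x, y, w} := by
  rw [insert_comm y z, er2 h2 h4.symm h6]

theorem er4 {x y z w : Fin n} (h3 : x ≠ w) (h5 : y ≠ w) (h6 : z ≠ w) :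
    ({x, y, z, w} : Finset (Fin n)).erase w = {x, y, z} := by
  rw [pair_comm z w, er3 h3 h5 h6.symm]

theorem four {H : Finset (Finset (Fin n))} (hK : Free H) {x y z w : Fin n} (h1 : x ≠ y)
    (h2 : x ≠ z) (h3 : x ≠ w) (h4 : y ≠ z) (h5 : y ≠ w) (h6 : z ≠ w) :
    ¬ (({y, z, w} : Finset (Fin n)) ∈ H ∧ ({x, z, w} : Finset (Fin n)) ∈ H ∧
      ({x, y, w} : Finset (Fin n)) ∈ H ∧ ({x, y, z} : Finset (Fin n)) ∈ H) := by
  rintro ⟨g1, g2, g3, g4⟩
  obtain ⟨e, heS, hec, heH⟩ := hK _ (card_four h1 h2 h3 h4 h5 h6)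
  obtain ⟨v, hv, rfl⟩ := erase_of (card_four h1 h2 h3 h4 h5 h6) hec heS
  simp only [mem_insert, mem_singleton] at hv
  rcases hv with rfl | rfl | rfl | rfl
  · rw [er1 h1 h2 h3] at heH
    exact heH g1
  · rw [er2 h1 h4 h5] at heH
    exact heH g2
  · rw [er3 h2 h4 h6] at heH
    exact heH g3
  · rw [er4 h3 h5 h6] at heH
    exact heH g4

theorem noFull_of {H : Finset (Finset (Fin n))} (hK : Free H) {A B : Finset (Fin n)}
    (hd : ∀ x ∈ A, ∀ y ∈ B, x ≠ y) : NoFull H A B := by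
  rintro x hx x' hx' hxx y hy y' hy' hyy ⟨g1, g2, g3, g4⟩
  refine four hK hxx (hd x hx y hy) (hd x hx y' hy') (hd x' hx' y hy) (hd x' hx' y' hy') hyy ?_
  refine ⟨?_, ?_, g2, g1⟩
  · rw [insert_comm, pair_comm]; exact g4
  · rw [insert_comm, pair_comm]; exact g3

theorem mixed_sub {H : Finset (Finset (Fin n))} (h3 : ∀ e ∈ H, e.card = 3) (c : Fin n → Fin 3)
    (P : Fin 3 → Finset (Fin n)) :
    (mixed H c).filter (fun e => ∀ x ∈ e, x ∈ P (c x)) ⊆ E H (P 0) (P 1) ∪ E H (P 0) (P 2) ∪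
      E H (P 1) (P 0) ∪ E H (P 1) (P 2) ∪ E H (P 2) (P 0) ∪ E H (P 2) (P 1) ∪
      Tr H (P 0) (P 1) (P 2) := by
  intro e he
  unfold mixed at he
  rw [mem_filter, mem_filter] at he
  obtain ⟨⟨heH, u, hu, v, hv, huv⟩, hP⟩ := he
  have hE : ∀ p q : Fin 3, p ≠ q → ∀ x y z : Fin n, x ≠ y → e = {x, y, z} → c x = p → c y = p →
      c z = q → e ∈ E H (P 0) (P 1) ∪ E H (P 0) (P 2) ∪ E H (P 1) (P 0) ∪
        E H (P 1) (P 2) ∪ E H (P 2) (P 0) ∪ E H (P 2) (P 1) ∪
        Tr H (P 0) (P 1) (P 2) := by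
    intro p q hpq x y z hxy hxyz hx hy hz
    have mx : x ∈ P p := hx ▸ hP x (by rw [hxyz]; simp)
    have my : y ∈ P p := hy ▸ hP y (by rw [hxyz]; simp)
    have mz : z ∈ P q := hz ▸ hP z (by rw [hxyz]; simp)
    have hm : e ∈ E H (P p) (P q) := mem_E heH ⟨x, mx, y, my, z, mz, hxy, hxyz⟩
    simp only [mem_union]
    fin_cases p <;> fin_cases q
    · exact absurd rfl hpq
    · exact Or.inl (Or.inl (Or.inl (Or.inl (Or.inl (Or.inl hm)))))
    · exact Or.inl (Or.inl (Or.inl (Or.inl (Or.inl (Or.inr hm)))))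
    · exact Or.inl (Or.inl (Or.inl (Or.inl (Or.inr hm))))
    · exact absurd rfl hpq
    · exact Or.inl (Or.inl (Or.inl (Or.inr hm)))
    · exact Or.inl (Or.inl (Or.inr hm))
    · exact Or.inl (Or.inr hm)
    · exact absurd rfl hpq
  obtain ⟨x, y, z, hxy, hxz, hyz, hxyz⟩ := card_eq_three.1 (h3 e heH)
  by_cases c1 : c x = c y
  · by_cases c2 : c x = c z
    · exfalso
      apply huv
      rw [hxyz] at hu hv
      simp only [mem_insert, mem_singleton] at hu hv
      rcases hu with rfl | rfl | rfl <;> rcases hv with rfl | rfl | rfl <;>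
        first
          | rfl
          | exact c1
          | exact c1.symm
          | exact c2
          | exact c2.symm
          | exact c1.symm.trans c2
          | exact c2.symm.trans c1
    · exact hE (c x) (c z) c2 x y z hxy hxyz rfl c1.symm rfl
  · by_cases c2 : c x = c z
    · exact hE (c x) (c y) c1 x z y hxz (by rw [hxyz, pair_comm]) rfl c2.symm rfl
    · by_cases c3 : c y = c z
      · exact hE (c y) (c x) (fun h => c1 h.symm) y z x hyz
          (by rw [hxyz, insert_comm, pair_comm x z]) rfl c3.symm rfl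
      · have key : ∀ p q r : Fin 3, p ≠ q → p ≠ r → q ≠ r → ∀ k, k = p ∨ k = q ∨ k = r := by
          decide
        have hk : ∀ k, ∃ v ∈ e, c v = k := by
          intro k
          rcases key _ _ _ c1 c2 c3 k with h | h | h
          · exact ⟨x, by rw [hxyz]; simp, h.symm⟩
          · exact ⟨y, by rw [hxyz]; simp, h.symm⟩
          · exact ⟨z, by rw [hxyz]; simp, h.symm⟩
        obtain ⟨v0, hv0, e0⟩ := hk 0
        obtain ⟨v1, hv1, e1⟩ := hk 1
        obtain ⟨v2, hv2, e2⟩ := hk 2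
        have n01 : v0 ≠ v1 := fun h => by rw [h, e1] at e0; exact absurd e0 (by decide)
        have n02 : v0 ≠ v2 := fun h => by rw [h, e2] at e0; exact absurd e0 (by decide)
        have n12 : v1 ≠ v2 := fun h => by rw [h, e2] at e1; exact absurd e1 (by decide)
        refine mem_union_right _ ?_
        refine mem_Tr heH ⟨v0, e0 ▸ hP v0 hv0, v1, e1 ▸ hP v1 hv1, v2, e2 ▸ hP v2 hv2, ?_⟩
        symm
        apply eq_of_subset_of_card_le
        · intro t ht
          simp only [mem_insert, mem_singleton] at ht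
          rcases ht with rfl | rfl | rfl
          · exact hv0
          · exact hv1
          · exact hv2
        · rw [h3 e heH, card_three n01 n02 n12]

/-- The sets of four vertices that contain exactly three triples of `H`, such that the fourth
triple meets all three classes. -/
def badS (H : Finset (Finset (Fin n))) (c : Fin n → Fin 3) : Finset (Finset (Fin n)) :=
  univ.filter fun S => S.card = 4 ∧ ∃ v ∈ S, (∀ u ∈ S, S.erase u ∈ H ↔ u ≠ v) ∧
    ∀ k : Fin 3, ∃ u ∈ S.erase v, c u = k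

/-- the ordered configurations with the repeated colour `k` -/
def QQ (H : Finset (Finset (Fin n))) (c : Fin n → Fin 3) (k : Fin 3) :
    Finset ((Fin n × Fin n) × (Fin n × Fin n)) :=
  ((cls c k).offDiag ×ˢ (cls c (k + 1) ×ˢ cls c (k + 2))).filter fun t =>
    ({t.1.1, t.1.2, t.2.1} : Finset (Fin n)) ∈ H ∧ ({t.1.1, t.1.2, t.2.2} : Finset (Fin n)) ∈ H ∧
      ({t.1.1, t.2.1, t.2.2} : Finset (Fin n)) ∈ H

theorem Bad_QQ (H : Finset (Finset (Fin n))) (c : Fin n → Fin 3) {P : Fin 3 → Finset (Fin n)}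
    (hP : ∀ k, P k ⊆ cls c k) (k : Fin 3) :
    Bad (ind H) (P k) (P (k + 1)) (P (k + 2)) ≤ (QQ H c k).card := by
  have h : Bad (ind H) (P k) (P (k + 1)) (P (k + 2)) =
      (((P k).offDiag ×ˢ (P (k + 1) ×ˢ P (k + 2))).filter fun t =>
    ({t.1.1, t.1.2, t.2.1} : Finset (Fin n)) ∈ H ∧ ({t.1.1, t.1.2, t.2.2} : Finset (Fin n)) ∈ H ∧
      ({t.1.1, t.2.1, t.2.2} : Finset (Fin n)) ∈ H).card := by
    unfold Bad
    rw [card_filter, sum_product]
    refine sum_congr rfl fun q _ => ?_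
    rw [sum_product]
    refine sum_congr rfl fun x _ => sum_congr rfl fun z _ => ?_
    rw [N_ind, N_ind, N_ind]
    split_ifs <;> simp_all
  rw [h]
  unfold QQ
  refine card_le_card (filter_subset_filter _ ?_)
  exact product_subset_product (offDiag_mono (hP k))
    (product_subset_product (hP (k + 1)) (hP (k + 2)))

theorem Bad_comm (H : Finset (Finset (Fin n))) (A B C : Finset (Fin n)) :
    Bad (ind H) B A C = Bad (ind H) B C A := by
  unfold Bad
  refine sum_congr rfl fun q _ => ?_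
  rw [sum_comm]
  refine sum_congr rfl fun z _ => sum_congr rfl fun x _ => ?_
  rw [mul_comm (N (ind H) q.1 q.2 x)]
  congr 1
  rw [N_ind, N_ind, pair_comm]

theorem QQ_dist {H : Finset (Finset (Fin n))} {c : Fin n → Fin 3} {k : Fin 3}
    {y y' x z : Fin n} (h : ((y, y'), (x, z)) ∈ QQ H c k) :
    c y = k ∧ c y' = k ∧ y ≠ y' ∧ c x = k + 1 ∧ c z = k + 2 ∧ ({y, y', x} : Finset (Fin n)) ∈ H ∧
      ({y, y', z} : Finset (Fin n)) ∈ H ∧ ({y, x, z} : Finset (Fin n)) ∈ H ∧
      y ≠ x ∧ y ≠ z ∧ y' ≠ x ∧ y' ≠ z ∧ x ≠ z := by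
  unfold QQ at h
  rw [mem_filter, mem_product, mem_offDiag, mem_product] at h
  obtain ⟨⟨⟨h1, h2, h3⟩, h4, h5⟩, h6, h7, h8⟩ := h
  simp only [mem_cls] at h1 h2 h4 h5
  have k1 : ∀ k : Fin 3, k ≠ k + 1 ∧ k ≠ k + 2 ∧ k + 1 ≠ k + 2 := by decide
  obtain ⟨a1, a2, a3⟩ := k1 k
  have ne : ∀ {u v : Fin n} {p q : Fin 3}, c u = p → c v = q → p ≠ q → u ≠ v := by
    intro u v p q hu hv hpq e
    rw [e, hv] at hu
    exact hpq hu.symm
  exact ⟨h1, h2, h3, h4, h5, h6, h7, h8, ne h1 h4 a1, ne h1 h5 a2, ne h2 h4 a1, ne h2 h5 a2,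
    ne h4 h5 a3⟩

theorem sum_QQ_le {H : Finset (Finset (Fin n))} (hK : Free H) (c : Fin n → Fin 3) :
    ∑ k, (QQ H c k).card ≤ (badS H c).card := by
  rw [← card_sigma]
  have hmem : ∀ k : Fin 3, ∀ t ∈ QQ H c k,
      ({t.1.1, t.1.2, t.2.1, t.2.2} : Finset (Fin n)).card = 4 ∧
      (∀ u ∈ ({t.1.1, t.1.2, t.2.1, t.2.2} : Finset (Fin n)),
        ({t.1.1, t.1.2, t.2.1, t.2.2} : Finset (Fin n)).erase u ∈ H ↔ u ≠ t.1.1) := by
    rintro k ⟨⟨y, y'⟩, x, z⟩ ht
    obtain ⟨h1, h2, h3, h4, h5, h6, h7, h8, g1, g2, g3, g4, g5⟩ := QQ_dist ht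
    simp only
    refine ⟨card_four h3 g1 g2 g3 g4 g5, ?_⟩
    intro u hu
    simp only [mem_insert, mem_singleton] at hu
    rcases hu with rfl | rfl | rfl | rfl
    · constructor
      · intro he
        rw [er1 h3 g1 g2] at he
        exact absurd ⟨he, h8, h7, h6⟩ (four hK h3 g1 g2 g3 g4 g5)
      · intro he
        exact absurd rfl he
    · rw [er2 h3 g3 g4]
      exact ⟨fun _ => h3.symm, fun _ => h8⟩
    · rw [er3 g1 g3 g5]
      exact ⟨fun _ => g1.symm, fun _ => h7⟩
    · rw [er4 g2 g4 g5]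
      exact ⟨fun _ => g2.symm, fun _ => h6⟩
  refine card_le_card_of_injOn (fun s => ({s.2.1.1, s.2.1.2, s.2.2.1, s.2.2.2} : Finset (Fin n)))
    ?_ ?_
  · rintro ⟨k, ⟨y, y'⟩, x, z⟩ hs
    rw [mem_coe, mem_sigma] at hs
    have h := hmem k _ hs.2
    obtain ⟨h1, h2, h3, h4, h5, h6, h7, h8, g1, g2, g3, g4, g5⟩ := QQ_dist hs.2
    rw [mem_coe]
    unfold badS
    rw [mem_filter]
    refine ⟨mem_univ _, h.1, y, by simp, h.2, ?_⟩
    intro j
    simp only
    rw [er1 h3 g1 g2]
    have kk : ∀ k j : Fin 3, j = k ∨ j = k + 1 ∨ j = k + 2 := by decide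
    rcases kk k j with h | h | h
    · exact ⟨y', by simp, by rw [h2, h]⟩
    · exact ⟨x, by simp, by rw [h4, h]⟩
    · exact ⟨z, by simp, by rw [h5, h]⟩
  · rintro ⟨k, ⟨y, y'⟩, x, z⟩ hs ⟨k', ⟨u, u'⟩, v, w⟩ hs' heq
    rw [mem_coe, mem_sigma] at hs hs'
    have m1 := hmem k _ hs.2
    have m2 := hmem k' _ hs'.2
    obtain ⟨h1, h2, h3, h4, h5, h6, h7, h8, g1, g2, g3, g4, g5⟩ := QQ_dist hs.2
    obtain ⟨i1, i2, i3, i4, i5, i6, i7, i8, j1, j2, j3, j4, j5⟩ := QQ_dist hs'.2
    simp only at heq m1 m2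
    rw [← heq] at m2
    have kk : ∀ k : Fin 3, k ≠ k + 1 ∧ k ≠ k + 2 ∧ k + 1 ≠ k + 2 := by decide
    obtain ⟨a1, a2, a3⟩ := kk k
    have hy : y = u := by
      by_contra hne
      have hyS : y ∈ ({y, y', x, z} : Finset (Fin n)) := by simp
      exact ((m1.2 y hyS).1 ((m2.2 y hyS).2 hne)) rfl
    subst hy
    have hk : k = k' := h1.symm.trans i1
    subst hk
    have mem1 : ∀ t ∈ ({y, u', v, w} : Finset (Fin n)), t = y ∨ t = y' ∨ t = x ∨ t = z := by
      intro t ht
      rw [← heq] at ht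
      simpa only [mem_insert, mem_singleton] using ht
    have e1 : u' = y' := by
      rcases mem1 u' (by simp) with h | h | h | h
      · exact absurd h.symm i3
      · exact h
      · exfalso; rw [h, h4] at i2; exact a1 i2.symm
      · exfalso; rw [h, h5] at i2; exact a2 i2.symm
    have e2 : v = x := by
      rcases mem1 v (by simp) with h | h | h | h
      · exact absurd h.symm j1
      · exfalso; rw [h, h2] at i4; exact a1 i4
      · exact h
      · exfalso; rw [h, h5] at i4; exact a3 i4.symm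
    have e3 : w = z := by
      rcases mem1 w (by simp) with h | h | h | h
      · exact absurd h.symm j2
      · exfalso; rw [h, h2] at i5; exact a2 i5
      · exfalso; rw [h, h4] at i5; exact a3 i5
      · exact h
    subst e1 e2 e3
    rfl

/-- **`m` vertices in each of the three classes.** -/
theorem sub_main {H : Finset (Finset (Fin n))} (h3 : ∀ e ∈ H, e.card = 3) (hK : Free H)
    (c : Fin n → Fin 3) (m : ℕ) (P : Fin 3 → Finset (Fin n)) (hP : ∀ k, P k ⊆ cls c k)
    (hm : ∀ k, (P k).card = m) :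
    6 * m * ((mixed H c).filter fun e => ∀ x ∈ e, x ∈ P (c x)).card + 9 * m ^ 3 ≤
      15 * m ^ 4 + 4 * (badS H c).card := by
  have hd : ∀ p q : Fin 3, p ≠ q → ∀ x ∈ P p, ∀ y ∈ P q, x ≠ y := by
    intro p q hpq x hx y hy e
    have hx := mem_cls.1 (hP p hx)
    have hy := mem_cls.1 (hP q hy)
    rw [e, hy] at hx
    exact hpq hx.symm
  have h := main H (P 0) (P 1) (P 2) m (hm 0) (hm 1) (hm 2)
    (noFull_of hK (hd 0 1 (by decide))) (noFull_of hK (hd 0 2 (by decide)))
    (noFull_of hK (hd 1 2 (by decide))) _ (mixed_sub h3 c P)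
  have hb := sum_QQ_le hK c
  rw [Fin.sum_univ_three] at hb
  have b0 := Bad_QQ H c hP 0
  have b1 := Bad_QQ H c hP 1
  have b2 := Bad_QQ H c hP 2
  have z1 : (0 : Fin 3) + 1 = 1 := rfl
  have z2 : (0 : Fin 3) + 2 = 2 := rfl
  have z3 : (1 : Fin 3) + 1 = 2 := rfl
  have z4 : (1 : Fin 3) + 2 = 0 := rfl
  have z5 : (2 : Fin 3) + 1 = 0 := rfl
  have z6 : (2 : Fin 3) + 2 = 1 := rfl
  rw [z1, z2] at b0
  rw [z3, z4, ← Bad_comm] at b1
  rw [z5, z6] at b2
  omega

/-- **Three classes with `m` vertices each.** -/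
theorem fin_main {H : Finset (Finset (Fin n))} (h3 : ∀ e ∈ H, e.card = 3) (hK : Free H)
    (c : Fin n → Fin 3) (m : ℕ) (hc : ∀ k, (cls c k).card = m) :
    6 * m * (mixed H c).card + 9 * m ^ 3 ≤ 15 * m ^ 4 + 4 * (badS H c).card := by
  have h := sub_main h3 hK c m (cls c) (fun _ => Subset.rfl) hc
  rwa [filter_true_of_mem fun e _ x _ => mem_cls.2 rfl] at h

/-- **At least `m` vertices in each of the three classes.** -/
theorem gen_main {H : Finset (Finset (Fin n))} (h3 : ∀ e ∈ H, e.card = 3) (hK : Free H)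
    (c : Fin n → Fin 3) (m : ℕ) (hc : ∀ k, m ≤ (cls c k).card) :
    3 * m ≤ n ∧ 6 * m * (mixed H c).card + 9 * m ^ 3 ≤ 15 * m ^ 4 + 4 * (badS H c).card +
      3 * m * (n - 3 * m) * n ^ 2 := by
  have hex : ∀ k, ∃ P ⊆ cls c k, P.card = m := fun k => exists_subset_card_eq (hc k)
  choose P hP hm using hex
  have h := sub_main h3 hK c m P hP hm
  set R : Finset (Fin n) := univ.filter fun x => x ∉ P (c x) with hR
  have hRc : R.card + 3 * m = n := by
    have h1 := card_filter_add_card_filter_not (s := (univ : Finset (Fin n)))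
      (fun x => x ∈ P (c x))
    have h2 : (univ.filter fun x => x ∈ P (c x)).card = 3 * m := by
      have h4 : (univ.filter fun x => x ∈ P (c x)) = univ.biUnion P := by
        ext x
        simp only [mem_filter, mem_univ, true_and, mem_biUnion]
        constructor
        · exact fun hx => ⟨_, hx⟩
        · rintro ⟨k, hk⟩
          have := mem_cls.1 (hP k hk)
          rwa [this]
      rw [h4, card_biUnion, sum_congr rfl fun k _ => hm k]
      · simp
      · intro p _ q _ hpq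
        rw [Function.onFun, disjoint_left]
        intro x hx hy
        have hx := mem_cls.1 (hP p hx)
        have hy := mem_cls.1 (hP q hy)
        exact hpq (hx.symm.trans hy)
    rw [h2, card_univ, Fintype.card_fin] at h1
    rw [hR]
    omega
  refine ⟨by omega, ?_⟩
  have hsplit := card_filter_add_card_filter_not (s := mixed H c)
    (fun e => ∀ x ∈ e, x ∈ P (c x))
  have hrest : 2 * ((mixed H c).filter fun e => ¬ ∀ x ∈ e, x ∈ P (c x)).card ≤
      R.card * n ^ 2 := by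
    have hs : ((mixed H c).filter fun e => ¬ ∀ x ∈ e, x ∈ P (c x)) ⊆
        R.biUnion fun v => ((univ.erase v).powersetCard 2).image fun q => insert v q := by
      intro e he
      rw [mem_filter] at he
      obtain ⟨he1, he2⟩ := he
      push Not at he2
      obtain ⟨v, hv, hvP⟩ := he2
      have heH : e ∈ H := (mem_filter.1 he1).1
      rw [mem_biUnion]
      refine ⟨v, by rw [hR, mem_filter]; exact ⟨mem_univ _, hvP⟩, ?_⟩
      rw [mem_image]
      refine ⟨e.erase v, ?_, insert_erase hv⟩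
      rw [mem_powersetCard]
      refine ⟨erase_subset_erase _ (subset_univ _), ?_⟩
      rw [card_erase_of_mem hv, h3 e heH]
    have h1 := (card_le_card hs).trans (card_biUnion_le_card_mul _ _ ((n - 1).choose 2)
      fun v _ => card_image_le.trans (by
        rw [card_powersetCard, card_erase_of_mem (mem_univ v), card_univ, Fintype.card_fin]))
    have h2 : 2 * (n - 1).choose 2 ≤ n ^ 2 := by
      rw [Nat.choose_two_right]
      have h4 := Nat.div_mul_le_self ((n - 1) * (n - 1 - 1)) 2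
      have h5 : (n - 1) * (n - 1 - 1) ≤ n ^ 2 := by
        rw [pow_two]
        exact Nat.mul_le_mul (by omega) (by omega)
      omega
    calc _ ≤ 2 * (R.card * (n - 1).choose 2) := Nat.mul_le_mul_left _ h1
      _ = R.card * (2 * (n - 1).choose 2) := by ring
      _ ≤ _ := Nat.mul_le_mul_left _ h2
  have hr : R.card = n - 3 * m := by omega
  rw [hr] at hrest
  have h6 := Nat.mul_le_mul_left (3 * m) hrest
  calc 6 * m * (mixed H c).card + 9 * m ^ 3 =
      6 * m * ((mixed H c).filter fun e => ∀ x ∈ e, x ∈ P (c x)).card + 9 * m ^ 3 +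
      3 * m * (2 * ((mixed H c).filter fun e => ¬ ∀ x ∈ e, x ∈ P (c x)).card) := by
        rw [← hsplit]; ring
    _ ≤ 15 * m ^ 4 + 4 * (badS H c).card + 3 * m * ((n - 3 * m) * n ^ 2) := add_le_add h h6
    _ = _ := by ring

end Pool.Agent.V11247.Tri3
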