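import Pool.Agent.V11247.Tri3.Any

/-! Injective placements of the three configurations. -/

set_option autoImplicit false

open Finset

namespace Pool.Agent.V11247.Tri3

variable {n : ℕ}

/-- The injective placements of the first configuration. -/
def cpA (H : Finset (Finset (Fin n))) (c : Fin n → Fin 3) : Finset (Fin 5 → Fin n) :=
  univ.filter fun x => Function.Injective x ∧
    (c (x 0) = c (x 1) ∧ c (x 1) = c (x 2) ∧ c (x 2) = c (x 3) ∧ c (x 3) ≠ c (x 4)) ∧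
    ({x 0, x 3, x 4} ∈ H ∧ {x 1, x 3, x 4} ∈ H ∧ {x 2, x 3, x 4} ∈ H) ∧
    ({x 0, x 1, x 4} ∉ H ∧ {x 0, x 2, x 4} ∉ H ∧ {x 1, x 2, x 4} ∉ H)

/-- The injective placements of the second configuration. -/
def cpB (H : Finset (Finset (Fin n))) (c : Fin n → Fin 3) : Finset (Fin 5 → Fin n) :=
  univ.filter fun x => Function.Injective x ∧
    (c (x 0) = c (x 1) ∧ c (x 1) = c (x 2) ∧ c (x 3) = c (x 4) ∧ c (x 2) ≠ c (x 3)) ∧
    ({x 0, x 1, x 3} ∈ H ∧ {x 0, x 1, x 4} ∈ H ∧ {x 0, x 2, x 3} ∈ H ∧ {x 0, x 2, x 4} ∈ H ∧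
      {x 1, x 2, x 3} ∈ H ∧ {x 1, x 2, x 4} ∈ H ∧ {x 2, x 3, x 4} ∈ H) ∧
    ({x 0, x 3, x 4} ∉ H ∧ {x 1, x 3, x 4} ∉ H)

/-- The injective placements of the third configuration. -/
def cpC (H : Finset (Finset (Fin n))) (c : Fin n → Fin 3) : Finset (Fin 5 → Fin n) :=
  univ.filter fun x => Function.Injective x ∧
    (c (x 0) = c (x 1) ∧ c (x 1) = c (x 2) ∧ c (x 2) ≠ c (x 3) ∧ c (x 2) ≠ c (x 4) ∧
      c (x 3) ≠ c (x 4)) ∧
    ({x 0, x 1, x 3} ∈ H ∧ {x 0, x 1, x 4} ∈ H ∧ {x 0, x 2, x 3} ∈ H ∧ {x 0, x 2, x 4} ∈ H ∧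
      {x 1, x 2, x 4} ∈ H ∧ {x 1, x 3, x 4} ∈ H ∧ {x 2, x 3, x 4} ∈ H) ∧
    ({x 0, x 3, x 4} ∉ H ∧ {x 1, x 2, x 3} ∉ H)

theorem dist_of {H : Finset (Finset (Fin n))} (h3 : ∀ e ∈ H, e.card = 3) {a b d : Fin n}
    (h : ({a, b, d} : Finset (Fin n)) ∈ H) : a ≠ b ∧ a ≠ d ∧ b ≠ d := by
  have hc := h3 _ h
  refine ⟨?_, ?_, ?_⟩
  · rintro rfl
    rw [insert_idem] at hc
    have := card_le_two (a := a) (b := d)
    omega
  · rintro rfl
    have e : ({a, b, a} : Finset (Fin n)) = {a, b} := by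
      rw [pair_comm b a, insert_idem]
    rw [e] at hc
    have := card_le_two (a := a) (b := b)
    omega
  · rintro rfl
    have e : ({a, b, b} : Finset (Fin n)) = {a, b} := by
      rw [pair_eq_singleton]
    rw [e] at hc
    have := card_le_two (a := a) (b := b)
    omega

theorem inj5 {x : Fin 5 → Fin n} (h01 : x 0 ≠ x 1) (h02 : x 0 ≠ x 2) (h03 : x 0 ≠ x 3)
    (h04 : x 0 ≠ x 4) (h12 : x 1 ≠ x 2) (h13 : x 1 ≠ x 3) (h14 : x 1 ≠ x 4) (h23 : x 2 ≠ x 3)
    (h24 : x 2 ≠ x 4) (h34 : x 3 ≠ x 4) : Function.Injective x := by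
  intro i j hij
  fin_cases i <;> fin_cases j <;>
    first
      | rfl
      | exact absurd hij h01
      | exact absurd hij h02
      | exact absurd hij h03
      | exact absurd hij h04
      | exact absurd hij h12
      | exact absurd hij h13
      | exact absurd hij h14
      | exact absurd hij h23
      | exact absurd hij h24
      | exact absurd hij h34
      | exact absurd hij.symm h01
      | exact absurd hij.symm h02
      | exact absurd hij.symm h03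
      | exact absurd hij.symm h04
      | exact absurd hij.symm h12
      | exact absurd hij.symm h13
      | exact absurd hij.symm h14
      | exact absurd hij.symm h23
      | exact absurd hij.symm h24
      | exact absurd hij.symm h34

theorem plB_le {H : Finset (Finset (Fin n))} (h3 : ∀ e ∈ H, e.card = 3) (c : Fin n → Fin 3) :
    (plB H c).card ≤ (cpB H c).card := by
  refine card_le_card fun x hx => ?_
  unfold plB at hx
  unfold cpB
  rw [mem_filter] at hx ⊢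
  obtain ⟨-, c1, c2, c3, c4, e1, e2, e3, e4, e5, e6, e7, f1, f2⟩ := hx
  obtain ⟨a1, a2, a3⟩ := dist_of h3 e1
  obtain ⟨b1, b2, b3⟩ := dist_of h3 e4
  obtain ⟨d1, d2, d3⟩ := dist_of h3 e5
  obtain ⟨g1, g2, g3⟩ := dist_of h3 e6
  obtain ⟨k1, k2, k3⟩ := dist_of h3 e7
  exact ⟨mem_univ _, inj5 a1 b1 a2 b2 d1 a3 g2 d3 b3 k3, ⟨c1, c2, c3, c4⟩,
    ⟨e1, e2, e3, e4, e5, e6, e7⟩, f1, f2⟩

theorem plC_le {H : Finset (Finset (Fin n))} (h3 : ∀ e ∈ H, e.card = 3) (c : Fin n → Fin 3) :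
    (plC H c).card ≤ (cpC H c).card := by
  refine card_le_card fun x hx => ?_
  unfold plC at hx
  unfold cpC
  rw [mem_filter] at hx ⊢
  obtain ⟨-, c1, c2, c3, c4, c5, e1, e2, e3, e4, e5, e6, e7, f1, f2⟩ := hx
  obtain ⟨a1, a2, a3⟩ := dist_of h3 e1
  obtain ⟨b1, b2, b3⟩ := dist_of h3 e4
  obtain ⟨d1, d2, d3⟩ := dist_of h3 e3
  obtain ⟨g1, g2, g3⟩ := dist_of h3 e5
  obtain ⟨k1, k2, k3⟩ := dist_of h3 e7
  exact ⟨mem_univ _, inj5 a1 b1 a2 b2 g1 a3 g2 d3 b3 k3, ⟨c1, c2, c3, c4, c5⟩,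
    ⟨e1, e2, e3, e4, e5, e6, e7⟩, f1, f2⟩

theorem eq_le (i j : Fin 5) (hij : i ≠ j) :
    ((univ : Finset (Fin 5 → Fin n)).filter fun x => x i = x j).card ≤ n ^ 4 := by
  have h : (univ : Finset (Fin 4 → Fin n)).card = n ^ 4 := by
    rw [card_univ, Fintype.card_fun, Fintype.card_fin, Fintype.card_fin]
  rw [← h]
  refine card_le_card_of_injOn (fun x k => x (i.succAbove k)) (fun _ _ => mem_coe.2 (mem_univ _)) ?_
  intro x hx y hy hxy
  rw [mem_coe, mem_filter] at hx hy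
  have key : ∀ l, l ≠ i → x l = y l := by
    intro l hl
    obtain ⟨k, rfl⟩ := Fin.exists_succAbove_eq hl
    exact congrFun hxy k
  funext l
  by_cases hl : l = i
  · rw [hl, hx.2, hy.2]
    exact key j hij.symm
  · exact key l hl

theorem plA_le {H : Finset (Finset (Fin n))} (h3 : ∀ e ∈ H, e.card = 3) (c : Fin n → Fin 3) :
    (plA H c).card ≤ (cpA H c).card + 3 * n ^ 4 := by
  have hs : plA H c ⊆ ((cpA H c ∪ (univ.filter fun x => x 0 = x 1)) ∪
      (univ.filter fun x => x 0 = x 2)) ∪ (univ.filter fun x => x 1 = x 2) := by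
    intro x hx
    unfold plA at hx
    rw [mem_filter] at hx
    obtain ⟨-, c1, c2, c3, c4, e1, e2, e3, f1, f2, f3⟩ := hx
    obtain ⟨a1, a2, a3⟩ := dist_of h3 e1
    obtain ⟨b1, b2, b3⟩ := dist_of h3 e2
    obtain ⟨d1, d2, d3⟩ := dist_of h3 e3
    by_cases h12 : x 1 = x 2
    · exact mem_union_right _ (mem_filter.2 ⟨mem_univ _, h12⟩)
    · by_cases h02 : x 0 = x 2
      · exact mem_union_left _ (mem_union_right _ (mem_filter.2 ⟨mem_univ _, h02⟩))
      · by_cases h01 : x 0 = x 1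
        · exact mem_union_left _ (mem_union_left _ (mem_union_right _
            (mem_filter.2 ⟨mem_univ _, h01⟩)))
        · refine mem_union_left _ (mem_union_left _ (mem_union_left _ ?_))
          unfold cpA
          rw [mem_filter]
          exact ⟨mem_univ _, inj5 h01 h02 a1 a2 h12 b1 b2 d1 d2 a3, ⟨c1, c2, c3, c4⟩,
            ⟨e1, e2, e3⟩, f1, f2, f3⟩
  have h1 := card_le_card hs
  have h2 := card_union_le ((cpA H c ∪ (univ.filter fun x => x 0 = x 1)) ∪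
      (univ.filter fun x => x 0 = x 2)) (univ.filter fun x => x 1 = x 2)
  have h4 := card_union_le (cpA H c ∪ (univ.filter fun x => x 0 = x 1))
      (univ.filter fun x => x 0 = x 2)
  have h5 := card_union_le (cpA H c) (univ.filter fun x => x 0 = x 1)
  have k1 := eq_le (n := n) 0 1 (by decide)
  have k2 := eq_le (n := n) 0 2 (by decide)
  have k3 := eq_le (n := n) 1 2 (by decide)
  omega

theorem real_of {n M P a b : ℕ} (hn : 1 ≤ n)
    (h : 54 * (n ^ 2 * M) ≤ 5 * n ^ 5 + a * P + b * n ^ 4) :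
    (M : ℝ) ≤ 5 / 54 * n ^ 3 + a / 54 * (P / n ^ 2) + b / 54 * n ^ 2 := by
  have h1 : 54 * ((n : ℝ) ^ 2 * M) ≤ 5 * (n : ℝ) ^ 5 + a * P + b * (n : ℝ) ^ 4 := by
    exact_mod_cast h
  have hn0 : (0 : ℝ) < n := by exact_mod_cast hn
  have h2 : (0 : ℝ) < 54 * (n : ℝ) ^ 2 := by positivity
  have e : 5 / 54 * (n : ℝ) ^ 3 + a / 54 * (P / (n : ℝ) ^ 2) + b / 54 * (n : ℝ) ^ 2 =
      (5 * (n : ℝ) ^ 5 + a * P + b * (n : ℝ) ^ 4) / (54 * (n : ℝ) ^ 2) := by
    field_simp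
  rw [e, le_div_iff₀ h2]
  linarith

theorem realA {H : Finset (Finset (Fin n))} (hn : 1 ≤ n) (h3 : ∀ e ∈ H, e.card = 3)
    (hK : Free H) (c : Fin n → Fin 3) :
    ((mixed H c).card : ℝ) ≤ 5 / 54 * n ^ 3 + 2 * ((cpA H c).card / n ^ 2) + 6 * n ^ 2 := by
  have h := real_of (n := n) (M := (mixed H c).card) (P := (cpA H c).card) (a := 108) (b := 324) hn
    (by
      have h1 := anyA h3 hK c
      have h2 := plA_le h3 c
      omega)
  norm_num at h
  exact h

theorem realB {H : Finset (Finset (Fin n))} (hn : 1 ≤ n) (h3 : ∀ e ∈ H, e.card = 3)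
    (hK : Free H) (c : Fin n → Fin 3) :
    ((mixed H c).card : ℝ) ≤ 5 / 54 * n ^ 3 + (cpB H c).card / n ^ 2 := by
  have h := real_of (n := n) (M := (mixed H c).card) (P := (cpB H c).card) (a := 54) (b := 0) hn
    (by
      have h1 := anyB h3 hK c
      have h2 := plB_le h3 c
      omega)
  norm_num at h
  exact h

theorem realC {H : Finset (Finset (Fin n))} (hn : 1 ≤ n) (h3 : ∀ e ∈ H, e.card = 3)
    (hK : Free H) (c : Fin n → Fin 3) :
    ((mixed H c).card : ℝ) ≤ 5 / 54 * n ^ 3 + 2 * ((cpC H c).card / n ^ 2) := by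
  have h := real_of (n := n) (M := (mixed H c).card) (P := (cpC H c).card) (a := 108) (b := 0) hn
    (by
      have h1 := anyC h3 hK c
      have h2 := plC_le h3 c
      omega)
  norm_num at h
  exact h

end Pool.Agent.V11247.Tri3
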