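import Pool.Agent.V11247.Tri3.Cv2

/-! A uniform description of the configurations. -/

set_option autoImplicit false

open Finset

namespace Pool.Agent.V11247.Tri3

variable {n : ℕ}

/-- the coloured configuration given by the colours and the special triples -/
def Pat5 (cx : Fin 5 → Fin 3) (E : Fin 5 → Fin 5 → Fin 5 → Prop) (col : Fin 5 → Fin 3)
    (L : Finset (Finset (Fin 5))) : Prop :=
  (∀ i j, cx i = cx j ↔ col i = col j) ∧
    ∀ i j k, i < j → j < k → ¬ (col i = col j ∧ col j = col k) → (E i j k ↔ {i, j, k} ∈ L)

theorem col_iff {cx col : Fin 5 → Fin 3}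
    (h : ∀ i j, i < j → (cx i = cx j ↔ col i = col j)) : ∀ i j, cx i = cx j ↔ col i = col j := by
  intro i j
  rcases lt_trichotomy i j with hij | hij | hij
  · exact h i j hij
  · rw [hij]
    exact iff_of_true rfl rfl
  · rw [eq_comm, h j i hij, eq_comm]

theorem patA (cx : Fin 5 → Fin 3) (E : Fin 5 → Fin 5 → Fin 5 → Prop) :
    Pat5 cx E ![0, 0, 0, 0, 1] {{0, 1, 4}, {0, 2, 4}, {1, 2, 4}} ↔
      (cx 0 = cx 1 ∧ cx 1 = cx 2 ∧ cx 2 = cx 3 ∧ cx 3 ≠ cx 4) ∧
      (¬ E 0 3 4 ∧ ¬ E 1 3 4 ∧ ¬ E 2 3 4) ∧ (E 0 1 4 ∧ E 0 2 4 ∧ E 1 2 4) := by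
  constructor
  · rintro ⟨h1, h2⟩
    refine ⟨⟨(h1 0 1).2 rfl, (h1 1 2).2 rfl, (h1 2 3).2 rfl, fun h => absurd ((h1 3 4).1 h)
      (by decide)⟩, ⟨?_, ?_, ?_⟩, ?_, ?_, ?_⟩
    · exact fun h => absurd ((h2 0 3 4 (by decide) (by decide) (by decide)).1 h) (by decide)
    · exact fun h => absurd ((h2 1 3 4 (by decide) (by decide) (by decide)).1 h) (by decide)
    · exact fun h => absurd ((h2 2 3 4 (by decide) (by decide) (by decide)).1 h) (by decide)
    · exact (h2 0 1 4 (by decide) (by decide) (by decide)).2 (by decide)
    · exact (h2 0 2 4 (by decide) (by decide) (by decide)).2 (by decide)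
    · exact (h2 1 2 4 (by decide) (by decide) (by decide)).2 (by decide)
  · rintro ⟨⟨c1, c2, c3, c4⟩, ⟨f1, f2, f3⟩, e1, e2, e3⟩
    have c02 := c1.trans c2
    have c13 := c2.trans c3
    have c03 := c1.trans c13
    have d2 : cx 2 ≠ cx 4 := by rw [c3]; exact c4
    have d1 : cx 1 ≠ cx 4 := by rw [c2]; exact d2
    have d0 : cx 0 ≠ cx 4 := by rw [c1]; exact d1
    refine ⟨col_iff ?_, ?_⟩
    · intro i j hij
      fin_cases i <;> fin_cases j <;>
        first
          | exact absurd hij (by decide)
          | exact iff_of_true c1 (by decide)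
          | exact iff_of_true c02 (by decide)
          | exact iff_of_true c03 (by decide)
          | exact iff_of_true c2 (by decide)
          | exact iff_of_true c13 (by decide)
          | exact iff_of_true c3 (by decide)
          | exact iff_of_false d0 (by decide)
          | exact iff_of_false d1 (by decide)
          | exact iff_of_false d2 (by decide)
          | exact iff_of_false c4 (by decide)
    · intro i j k hij hjk hne
      fin_cases i <;> fin_cases j <;>
        first
          | exact absurd hij (by decide)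
          | (fin_cases k <;>
              first
                | exact absurd hjk (by decide)
                | exact absurd (by decide) hne
                | exact iff_of_false f1 (by decide)
                | exact iff_of_false f2 (by decide)
                | exact iff_of_false f3 (by decide)
                | exact iff_of_true e1 (by decide)
                | exact iff_of_true e2 (by decide)
                | exact iff_of_true e3 (by decide))

theorem patB (cx : Fin 5 → Fin 3) (E : Fin 5 → Fin 5 → Fin 5 → Prop) :
    Pat5 cx E ![0, 0, 0, 1, 1] {{0, 3, 4}, {1, 3, 4}} ↔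
      (cx 0 = cx 1 ∧ cx 1 = cx 2 ∧ cx 3 = cx 4 ∧ cx 2 ≠ cx 3) ∧
      (¬ E 0 1 3 ∧ ¬ E 0 1 4 ∧ ¬ E 0 2 3 ∧ ¬ E 0 2 4 ∧ ¬ E 1 2 3 ∧ ¬ E 1 2 4 ∧ ¬ E 2 3 4) ∧
      (E 0 3 4 ∧ E 1 3 4) := by
  constructor
  · rintro ⟨h1, h2⟩
    refine ⟨⟨(h1 0 1).2 rfl, (h1 1 2).2 rfl, (h1 3 4).2 rfl, fun h => absurd ((h1 2 3).1 h)
      (by decide)⟩, ⟨?_, ?_, ?_, ?_, ?_, ?_, ?_⟩, ?_, ?_⟩
    · exact fun h => absurd ((h2 0 1 3 (by decide) (by decide) (by decide)).1 h) (by decide)
    · exact fun h => absurd ((h2 0 1 4 (by decide) (by decide) (by decide)).1 h) (by decide)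
    · exact fun h => absurd ((h2 0 2 3 (by decide) (by decide) (by decide)).1 h) (by decide)
    · exact fun h => absurd ((h2 0 2 4 (by decide) (by decide) (by decide)).1 h) (by decide)
    · exact fun h => absurd ((h2 1 2 3 (by decide) (by decide) (by decide)).1 h) (by decide)
    · exact fun h => absurd ((h2 1 2 4 (by decide) (by decide) (by decide)).1 h) (by decide)
    · exact fun h => absurd ((h2 2 3 4 (by decide) (by decide) (by decide)).1 h) (by decide)
    · exact (h2 0 3 4 (by decide) (by decide) (by decide)).2 (by decide)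
    · exact (h2 1 3 4 (by decide) (by decide) (by decide)).2 (by decide)
  · rintro ⟨⟨c1, c2, c3, c4⟩, ⟨f1, f2, f3, f4, f5, f6, f7⟩, e1, e2⟩
    have c02 := c1.trans c2
    have d13 : cx 1 ≠ cx 3 := by rw [c2]; exact c4
    have d03 : cx 0 ≠ cx 3 := by rw [c1]; exact d13
    have d24 : cx 2 ≠ cx 4 := by rw [← c3]; exact c4
    have d14 : cx 1 ≠ cx 4 := by rw [← c3]; exact d13
    have d04 : cx 0 ≠ cx 4 := by rw [← c3]; exact d03
    refine ⟨col_iff ?_, ?_⟩
    · intro i j hij
      fin_cases i <;> fin_cases j <;>
        first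
          | exact absurd hij (by decide)
          | exact iff_of_true c1 (by decide)
          | exact iff_of_true c02 (by decide)
          | exact iff_of_true c2 (by decide)
          | exact iff_of_true c3 (by decide)
          | exact iff_of_false d03 (by decide)
          | exact iff_of_false d04 (by decide)
          | exact iff_of_false d13 (by decide)
          | exact iff_of_false d14 (by decide)
          | exact iff_of_false c4 (by decide)
          | exact iff_of_false d24 (by decide)
    · intro i j k hij hjk hne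
      fin_cases i <;> fin_cases j <;>
        first
          | exact absurd hij (by decide)
          | (fin_cases k <;>
              first
                | exact absurd hjk (by decide)
                | exact absurd (by decide) hne
                | exact iff_of_false f1 (by decide)
                | exact iff_of_false f2 (by decide)
                | exact iff_of_false f3 (by decide)
                | exact iff_of_false f4 (by decide)
                | exact iff_of_false f5 (by decide)
                | exact iff_of_false f6 (by decide)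
                | exact iff_of_false f7 (by decide)
                | exact iff_of_true e1 (by decide)
                | exact iff_of_true e2 (by decide))

theorem patC (cx : Fin 5 → Fin 3) (E : Fin 5 → Fin 5 → Fin 5 → Prop) :
    Pat5 cx E ![0, 0, 0, 1, 2] {{0, 3, 4}, {1, 2, 3}} ↔
      (cx 0 = cx 1 ∧ cx 1 = cx 2 ∧ cx 2 ≠ cx 3 ∧ cx 2 ≠ cx 4 ∧ cx 3 ≠ cx 4) ∧
      (¬ E 0 1 3 ∧ ¬ E 0 1 4 ∧ ¬ E 0 2 3 ∧ ¬ E 0 2 4 ∧ ¬ E 1 2 4 ∧ ¬ E 1 3 4 ∧ ¬ E 2 3 4) ∧
      (E 0 3 4 ∧ E 1 2 3) := by
  constructor
  · rintro ⟨h1, h2⟩
    refine ⟨⟨(h1 0 1).2 rfl, (h1 1 2).2 rfl, fun h => absurd ((h1 2 3).1 h) (by decide),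
      fun h => absurd ((h1 2 4).1 h) (by decide), fun h => absurd ((h1 3 4).1 h) (by decide)⟩,
      ⟨?_, ?_, ?_, ?_, ?_, ?_, ?_⟩, ?_, ?_⟩
    · exact fun h => absurd ((h2 0 1 3 (by decide) (by decide) (by decide)).1 h) (by decide)
    · exact fun h => absurd ((h2 0 1 4 (by decide) (by decide) (by decide)).1 h) (by decide)
    · exact fun h => absurd ((h2 0 2 3 (by decide) (by decide) (by decide)).1 h) (by decide)
    · exact fun h => absurd ((h2 0 2 4 (by decide) (by decide) (by decide)).1 h) (by decide)
    · exact fun h => absurd ((h2 1 2 4 (by decide) (by decide) (by decide)).1 h) (by decide)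
    · exact fun h => absurd ((h2 1 3 4 (by decide) (by decide) (by decide)).1 h) (by decide)
    · exact fun h => absurd ((h2 2 3 4 (by decide) (by decide) (by decide)).1 h) (by decide)
    · exact (h2 0 3 4 (by decide) (by decide) (by decide)).2 (by decide)
    · exact (h2 1 2 3 (by decide) (by decide) (by decide)).2 (by decide)
  · rintro ⟨⟨c1, c2, d23, d24, d34⟩, ⟨f1, f2, f3, f4, f5, f6, f7⟩, e1, e2⟩
    have c02 := c1.trans c2
    have d13 : cx 1 ≠ cx 3 := by rw [c2]; exact d23
    have d03 : cx 0 ≠ cx 3 := by rw [c1]; exact d13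
    have d14 : cx 1 ≠ cx 4 := by rw [c2]; exact d24
    have d04 : cx 0 ≠ cx 4 := by rw [c1]; exact d14
    refine ⟨col_iff ?_, ?_⟩
    · intro i j hij
      fin_cases i <;> fin_cases j <;>
        first
          | exact absurd hij (by decide)
          | exact iff_of_true c1 (by decide)
          | exact iff_of_true c02 (by decide)
          | exact iff_of_true c2 (by decide)
          | exact iff_of_false d03 (by decide)
          | exact iff_of_false d04 (by decide)
          | exact iff_of_false d13 (by decide)
          | exact iff_of_false d14 (by decide)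
          | exact iff_of_false d23 (by decide)
          | exact iff_of_false d24 (by decide)
          | exact iff_of_false d34 (by decide)
    · intro i j k hij hjk hne
      fin_cases i <;> fin_cases j <;>
        first
          | exact absurd hij (by decide)
          | (fin_cases k <;>
              first
                | exact absurd hjk (by decide)
                | exact absurd (by decide) hne
                | exact iff_of_false f1 (by decide)
                | exact iff_of_false f2 (by decide)
                | exact iff_of_false f3 (by decide)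
                | exact iff_of_false f4 (by decide)
                | exact iff_of_false f5 (by decide)
                | exact iff_of_false f6 (by decide)
                | exact iff_of_false f7 (by decide)
                | exact iff_of_true e1 (by decide)
                | exact iff_of_true e2 (by decide))

/-- placements for coverings: the special triples are the edges -/
def plsT (T : Finset (Finset (Fin n))) (c : Fin n → Fin 3) (col : Fin 5 → Fin 3)
    (L : Finset (Finset (Fin 5))) : Finset (Fin 5 → Fin n) :=
  univ.filter fun x => Function.Injective x ∧ (∀ i j, c (x i) = c (x j) ↔ col i = col j) ∧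
    ∀ i j k, i < j → j < k → ¬ (col i = col j ∧ col j = col k) →
      ({x i, x j, x k} ∈ T ↔ {i, j, k} ∈ L)

/-- placements for `K_4^3`-free 3-graphs: the special triples are the non-edges -/
def plsG (G : Finset (Finset (Fin n))) (c : Fin n → Fin 3) (col : Fin 5 → Fin 3)
    (L : Finset (Finset (Fin 5))) : Finset (Fin 5 → Fin n) :=
  univ.filter fun x => Function.Injective x ∧ (∀ i j, c (x i) = c (x j) ↔ col i = col j) ∧
    ∀ i j k, i < j → j < k → ¬ (col i = col j ∧ col j = col k) →
      ({x i, x j, x k} ∉ G ↔ {i, j, k} ∈ L)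

theorem plsTA (T : Finset (Finset (Fin n))) (c : Fin n → Fin 3) :
    plsT T c ![0, 0, 0, 0, 1] {{0, 1, 4}, {0, 2, 4}, {1, 2, 4}} = cfA T c := by
  unfold plsT cfA
  exact filter_congr fun x _ => and_congr_right fun _ =>
    patA (fun i => c (x i)) fun i j k => {x i, x j, x k} ∈ T

theorem plsTB (T : Finset (Finset (Fin n))) (c : Fin n → Fin 3) :
    plsT T c ![0, 0, 0, 1, 1] {{0, 3, 4}, {1, 3, 4}} = cfB T c := by
  unfold plsT cfB
  exact filter_congr fun x _ => and_congr_right fun _ =>
    patB (fun i => c (x i)) fun i j k => {x i, x j, x k} ∈ T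

theorem plsTC (T : Finset (Finset (Fin n))) (c : Fin n → Fin 3) :
    plsT T c ![0, 0, 0, 1, 2] {{0, 3, 4}, {1, 2, 3}} = cfC T c := by
  unfold plsT cfC
  exact filter_congr fun x _ => and_congr_right fun _ =>
    patC (fun i => c (x i)) fun i j k => {x i, x j, x k} ∈ T

theorem plsGA (G : Finset (Finset (Fin n))) (c : Fin n → Fin 3) :
    plsG G c ![0, 0, 0, 0, 1] {{0, 1, 4}, {0, 2, 4}, {1, 2, 4}} = cpA G c := by
  unfold plsG cpA
  refine filter_congr fun x _ => and_congr_right fun _ => ?_
  refine (patA (fun i => c (x i)) fun i j k => {x i, x j, x k} ∉ G).trans ?_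
  simp only [not_not]

theorem plsGB (G : Finset (Finset (Fin n))) (c : Fin n → Fin 3) :
    plsG G c ![0, 0, 0, 1, 1] {{0, 3, 4}, {1, 3, 4}} = cpB G c := by
  unfold plsG cpB
  refine filter_congr fun x _ => and_congr_right fun _ => ?_
  refine (patB (fun i => c (x i)) fun i j k => {x i, x j, x k} ∉ G).trans ?_
  simp only [not_not]

theorem plsGC (G : Finset (Finset (Fin n))) (c : Fin n → Fin 3) :
    plsG G c ![0, 0, 0, 1, 2] {{0, 3, 4}, {1, 2, 3}} = cpC G c := by
  unfold plsG cpC
  refine filter_congr fun x _ => and_congr_right fun _ => ?_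
  refine (patC (fun i => c (x i)) fun i j k => {x i, x j, x k} ∉ G).trans ?_
  simp only [not_not]

end Pool.Agent.V11247.Tri3
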