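import Mathlib

/-! The inequality on two plus two plus two vertices. -/

set_option autoImplicit false

namespace Pool.Agent.V11247.Tri3

/-- `3 t ≤ (3 - 2 r) + 2 t r`. -/
theorem tl (t : Bool) (R : ℕ) : 3 * t.toNat ≤ (3 - 2 * R) + 2 * (t.toNat * R) := by
  cases t
  · simp
  · simp only [Bool.toNat_true, one_mul, mul_one]
    omega

/-- all 4096 cases -/
theorem core : ∀ a1 a2 a3 a4 b1 b2 b3 b4 c1 c2 c3 c4 : Bool,
    (a1 && a2 && b1 && b2) = false → (a3 && a4 && c1 && c2) = false →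
    (b3 && b4 && c3 && c4) = false →
    6 * (a1.toNat + a2.toNat + a3.toNat + a4.toNat + b1.toNat + b2.toNat + b3.toNat + b4.toNat +
      c1.toNat + c2.toNat + c3.toNat + c4.toNat) +
    ((3 - 2 * (b1.toNat * b3.toNat + a1.toNat * a3.toNat + c1.toNat * c3.toNat)) +
     (3 - 2 * (b1.toNat * b4.toNat + a1.toNat * a4.toNat + c1.toNat * c3.toNat)) +
     (3 - 2 * (b1.toNat * b3.toNat + a2.toNat * a3.toNat + c1.toNat * c4.toNat)) +
     (3 - 2 * (b1.toNat * b4.toNat + a2.toNat * a4.toNat + c1.toNat * c4.toNat)) +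
     (3 - 2 * (b2.toNat * b3.toNat + a1.toNat * a3.toNat + c2.toNat * c3.toNat)) +
     (3 - 2 * (b2.toNat * b4.toNat + a1.toNat * a4.toNat + c2.toNat * c3.toNat)) +
     (3 - 2 * (b2.toNat * b3.toNat + a2.toNat * a3.toNat + c2.toNat * c4.toNat)) +
     (3 - 2 * (b2.toNat * b4.toNat + a2.toNat * a4.toNat + c2.toNat * c4.toNat))) ≤ 60 := by
  decide +kernel

end Pool.Agent.V11247.Tri3
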