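import Pool.Agent.V11247.Tri3.Lnk

/-! Turán's construction attains the bound. -/

set_option autoImplicit false

open Finset

namespace Pool.Agent.V11247.Tri3

variable {n : ℕ}

/-- Turán's construction: the triples that meet all three classes, and the triples with two
vertices in a class and one in the following class -/
def turan (c : Fin n → Fin 3) : Finset (Finset (Fin n)) :=
  univ.filter fun e => e.card = 3 ∧ ((∀ k, ∃ x ∈ e, c x = k) ∨
    ∃ k, (e.filter fun x => c x = k).card = 2 ∧ (e.filter fun x => c x = k + 1).card = 1)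

theorem turan_card3 (c : Fin n → Fin 3) : ∀ e ∈ turan c, e.card = 3 := fun _ he =>
  (mem_filter.1 he).2.1

theorem prof (c : Fin n → Fin 3) (v : Fin 3 → ℕ) :
    (univ.filter fun e : Finset (Fin n) => ∀ k, (e.filter fun x => c x = k).card = v k).card =
      ∏ k, (cls c k).card.choose (v k) := by
  have h1 : ∏ k, (cls c k).card.choose (v k) =
      (Fintype.piFinset fun k => (cls c k).powersetCard (v k)).card := by
    rw [Fintype.card_piFinset]
    exact prod_congr rfl fun k _ => (card_powersetCard _ _).symm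
  have key : ∀ f ∈ (Fintype.piFinset fun k => (cls c k).powersetCard (v k)),
      ∀ k, (univ.biUnion f).filter (fun x => c x = k) = f k := by
    intro f hf k
    rw [Fintype.mem_piFinset] at hf
    ext x
    rw [mem_filter, mem_biUnion]
    constructor
    · rintro ⟨⟨j, -, hj⟩, hx⟩
      have := mem_cls.1 ((mem_powersetCard.1 (hf j)).1 hj)
      rw [hx] at this
      rwa [this]
    · intro hx
      exact ⟨⟨k, mem_univ _, hx⟩, mem_cls.1 ((mem_powersetCard.1 (hf k)).1 hx)⟩
  rw [h1]
  refine card_nbij' (fun e k => e.filter fun x => c x = k) (fun f => univ.biUnion f) ?_ ?_ ?_ ?_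
  · intro e he
    rw [mem_coe, mem_filter] at he
    rw [mem_coe, Fintype.mem_piFinset]
    intro k
    rw [mem_powersetCard]
    exact ⟨fun x hx => mem_cls.2 (mem_filter.1 hx).2, he.2 k⟩
  · intro f hf
    rw [mem_coe] at hf
    rw [mem_coe, mem_filter]
    refine ⟨mem_univ _, fun k => ?_⟩
    rw [key f hf k]
    rw [Fintype.mem_piFinset] at hf
    exact (mem_powersetCard.1 (hf k)).2
  · intro e _
    ext x
    simp only [mem_biUnion, mem_univ, true_and, mem_filter]
    exact ⟨fun ⟨_, h, _⟩ => h, fun h => ⟨c x, h, rfl⟩⟩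
  · intro f hf
    rw [mem_coe] at hf
    funext k
    exact key f hf k

theorem card_sum (c : Fin n → Fin 3) (e : Finset (Fin n)) :
    e.card = (e.filter fun x => c x = 0).card + (e.filter fun x => c x = 1).card +
      (e.filter fun x => c x = 2).card := by
  rw [card_eq_sum_card_fiberwise (f := c) (t := univ) fun _ _ => mem_coe.2 (mem_univ _),
    Fin.sum_univ_three]

/-- the four profiles -/
def V : Finset (Fin 3 → ℕ) := {![1, 1, 1], ![2, 1, 0], ![0, 2, 1], ![1, 0, 2]}

theorem turan_of (c : Fin n → Fin 3) {e : Finset (Fin n)} {v : Fin 3 → ℕ} (hv : v ∈ V)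
    (h : ∀ k, (e.filter fun x => c x = k).card = v k) : e ∈ turan c := by
  unfold turan
  rw [mem_filter]
  have h0 := h 0
  have h1 := h 1
  have h2 := h 2
  refine ⟨mem_univ _, ?_, ?_⟩
  · rw [card_sum c e, h0, h1, h2]
    unfold V at hv
    simp only [mem_insert, mem_singleton] at hv
    rcases hv with rfl | rfl | rfl | rfl <;> rfl
  · unfold V at hv
    simp only [mem_insert, mem_singleton] at hv
    rcases hv with rfl | rfl | rfl | rfl
    · left
      intro k
      have hk : 0 < (e.filter fun x => c x = k).card := by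
        rw [h k]
        fin_cases k <;> decide
      obtain ⟨x, hx⟩ := card_pos.1 hk
      exact ⟨x, (mem_filter.1 hx).1, (mem_filter.1 hx).2⟩
    · right
      exact ⟨0, h0, h1⟩
    · right
      exact ⟨1, h1, h2⟩
    · right
      exact ⟨2, h2, h0⟩

theorem turan_card (c : Fin n → Fin 3) (m : ℕ) (hc : ∀ k, (cls c k).card = m) :
    m ^ 3 + 3 * (m * m.choose 2) ≤ (turan c).card := by
  have h1 : ∑ v ∈ V, ((turan c).filter fun e => (fun k => (e.filter fun x => c x = k).card) = v).card
      ≤ (turan c).card := by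
    rw [← card_biUnion]
    · refine card_le_card fun e he => ?_
      rw [mem_biUnion] at he
      obtain ⟨v, -, hv⟩ := he
      exact (mem_filter.1 hv).1
    · intro v _ w _ hvw
      rw [Function.onFun, disjoint_left]
      intro e he he'
      exact hvw ((mem_filter.1 he).2.symm.trans (mem_filter.1 he').2)
  have h2 : ∀ v ∈ V, ((turan c).filter fun e =>
      (fun k => (e.filter fun x => c x = k).card) = v).card = ∏ k, m.choose (v k) := by
    intro v hv
    have h3 := prof c v
    rw [prod_congr rfl fun k _ => by rw [hc k]] at h3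
    rw [← h3]
    congr 1
    ext e
    simp only [mem_filter, mem_univ, true_and]
    constructor
    · rintro ⟨-, h⟩ k
      rw [← h]
    · intro h
      exact ⟨turan_of c hv h, funext h⟩
  rw [sum_congr rfl h2] at h1
  refine le_trans (le_of_eq ?_) h1
  have hV : V = {![1, 1, 1], ![2, 1, 0], ![0, 2, 1], ![1, 0, 2]} := rfl
  have n1 : (![1, 1, 1] : Fin 3 → ℕ) ∉ ({![2, 1, 0], ![0, 2, 1], ![1, 0, 2]} : Finset (Fin 3 → ℕ)) := by
    decide
  have n2 : (![2, 1, 0] : Fin 3 → ℕ) ∉ ({![0, 2, 1], ![1, 0, 2]} : Finset (Fin 3 → ℕ)) := by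
    decide
  have n3 : (![0, 2, 1] : Fin 3 → ℕ) ∉ ({![1, 0, 2]} : Finset (Fin 3 → ℕ)) := by
    decide
  rw [hV, sum_insert n1, sum_insert n2, sum_insert n3, sum_singleton]
  simp [Fin.prod_univ_three]
  ring

/-- the pattern of colours of an edge -/
def good (p q r : Fin 3) : Bool :=
  (decide (p ≠ q ∧ p ≠ r ∧ q ≠ r)) || (decide (p = q ∧ r = p + 1)) ||
    (decide (p = r ∧ q = p + 1)) || (decide (q = r ∧ p = q + 1))

theorem good_of {c : Fin n → Fin 3} {x y z : Fin n} (h1 : x ≠ y) (h2 : x ≠ z) (h4 : y ≠ z)
    (h : ({x, y, z} : Finset (Fin n)) ∈ turan c) : good (c x) (c y) (c z) = true := by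
  unfold turan at h
  rw [mem_filter] at h
  have hf : ∀ k, (({x, y, z} : Finset (Fin n)).filter fun u => c u = k).card =
      (if c x = k then 1 else 0) + (if c y = k then 1 else 0) + (if c z = k then 1 else 0) := by
    intro k
    rw [card_filter, sum_insert, sum_insert, sum_singleton, add_assoc]
    · rw [mem_singleton]; exact h4
    · rw [mem_insert, mem_singleton]; rintro (h | h)
      · exact h1 h
      · exact h2 h
  have key : ∀ p q r : Fin 3, ((∀ k, k = p ∨ k = q ∨ k = r) ∨
      ∃ k : Fin 3, (if p = k then 1 else 0) + (if q = k then 1 else 0) + (if r = k then 1 else 0) = 2 ∧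
      (if p = k + 1 then 1 else 0) + (if q = k + 1 then 1 else 0) +
        (if r = k + 1 then 1 else 0) = 1) → good p q r = true := by
    decide +kernel
  apply key
  rcases h.2.2 with h | ⟨k, g1, g2⟩
  · left
    intro k
    obtain ⟨u, hu, huk⟩ := h k
    simp only [mem_insert, mem_singleton] at hu
    rcases hu with rfl | rfl | rfl
    · exact Or.inl huk.symm
    · exact Or.inr (Or.inl huk.symm)
    · exact Or.inr (Or.inr huk.symm)
  · right
    exact ⟨k, by rw [← hf k]; exact g1, by rw [← hf (k + 1)]; exact g2⟩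

theorem turan_free (c : Fin n → Fin 3) : Free (turan c) := by
  intro S hS
  by_contra hcon
  push Not at hcon
  obtain ⟨x, y, z, w, h1, h2, h3, h4, h5, h6, rfl⟩ := card_eq_four.1 hS
  have key : ∀ p q r s : Fin 3,
      (good p q r && good p q s && good p r s && good q r s) = false := by
    decide +kernel
  have g1 := good_of h1 h2 h4 (hcon {x, y, z} (by
    intro t; simp only [mem_insert, mem_singleton]; tauto) (card_three h1 h2 h4))
  have g2 := good_of h1 h3 h5 (hcon {x, y, w} (by
    intro t; simp only [mem_insert, mem_singleton]; tauto) (card_three h1 h3 h5))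
  have g3 := good_of h2 h3 h6 (hcon {x, z, w} (by
    intro t; simp only [mem_insert, mem_singleton]; tauto) (card_three h2 h3 h6))
  have g4 := good_of h4 h5 h6 (hcon {y, z, w} (by
    intro t; simp only [mem_insert, mem_singleton]; tauto) (card_three h4 h5 h6))
  have := key (c x) (c y) (c z) (c w)
  rw [g1, g2, g3, g4] at this
  exact absurd this (by decide)

theorem turan_bad (c : Fin n → Fin 3) : badS (turan c) c = ∅ := by
  rw [eq_empty_iff_forall_notMem]
  intro S hS
  unfold badS at hS
  rw [mem_filter] at hS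
  obtain ⟨-, hc, v, hv, h1, h2⟩ := hS
  refine absurd rfl ((h1 v hv).1 ?_)
  unfold turan
  rw [mem_filter]
  refine ⟨mem_univ _, ?_, Or.inl h2⟩
  rw [card_erase_of_mem hv, hc]

theorem turan_mixed (c : Fin n → Fin 3) : ∀ e ∈ turan c, ∃ x ∈ e, ∃ y ∈ e, c x ≠ c y := by
  intro e he
  have hk1 : ∀ k : Fin 3, k ≠ k + 1 := by decide
  unfold turan at he
  rw [mem_filter] at he
  rcases he.2.2 with h | ⟨k, g1, g2⟩
  · obtain ⟨x, hx, hx0⟩ := h 0
    obtain ⟨y, hy, hy0⟩ := h 1
    exact ⟨x, hx, y, hy, by rw [hx0, hy0]; decide⟩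
  · have p1 : 0 < (e.filter fun x => c x = k).card := by omega
    have p2 : 0 < (e.filter fun x => c x = k + 1).card := by omega
    obtain ⟨x, hx⟩ := card_pos.1 p1
    obtain ⟨y, hy⟩ := card_pos.1 p2
    rw [mem_filter] at hx hy
    exact ⟨x, hx.1, y, hy.1, by rw [hx.2, hy.2]; exact hk1 k⟩

/-- the balanced colouring of `3 m` vertices -/
theorem exists_col (m : ℕ) : ∃ c : Fin (3 * m) → Fin 3, ∀ k, (cls c k).card = m := by
  refine ⟨fun x => (finProdFinEquiv.symm x).1, fun k => ?_⟩
  have h : cls (fun x : Fin (3 * m) => (finProdFinEquiv.symm x).1) k =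
      (univ : Finset (Fin m)).image fun j => finProdFinEquiv (k, j) := by
    ext x
    rw [mem_cls, mem_image]
    constructor
    · intro h
      refine ⟨(finProdFinEquiv.symm x).2, mem_univ _, ?_⟩
      rw [← h]
      exact finProdFinEquiv.apply_symm_apply x
    · rintro ⟨j, -, rfl⟩
      rw [Equiv.symm_apply_apply]
  rw [h, card_image_of_injective, card_univ, Fintype.card_fin]
  intro i j hij
  have := finProdFinEquiv.injective hij
  exact (Prod.mk.inj this).2

end Pool.Agent.V11247.Tri3
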