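import Pool.Agent.V11247.Tri3.Pl

/-! Turán's construction contains none of the three configurations. -/

set_option autoImplicit false

open Finset

namespace Pool.Agent.V11247.Tri3

variable {n : ℕ}

theorem turan_pair (c : Fin n → Fin 3) {a b d : Fin n} (h1 : a ≠ b) (h2 : a ≠ d) (h3 : b ≠ d)
    (hab : c a = c b) (hd : c d = c a + 1) : ({a, b, d} : Finset (Fin n)) ∈ turan c := by
  unfold turan
  rw [mem_filter]
  have hne : ∀ k : Fin 3, k + 1 ≠ k := by decide
  refine ⟨mem_univ _, card_three h1 h2 h3, Or.inr ⟨c a, ?_, ?_⟩⟩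
  · have e : ({a, b, d} : Finset (Fin n)).filter (fun x => c x = c a) = {a, b} := by
      ext t
      simp only [mem_filter, mem_insert, mem_singleton]
      constructor
      · rintro ⟨rfl | rfl | rfl, h⟩
        · exact Or.inl rfl
        · exact Or.inr rfl
        · exact absurd (hd.symm.trans h) (hne _)
      · rintro (rfl | rfl)
        · exact ⟨Or.inl rfl, rfl⟩
        · exact ⟨Or.inr (Or.inl rfl), hab.symm⟩
    rw [e, card_pair h1]
  · have e : ({a, b, d} : Finset (Fin n)).filter (fun x => c x = c a + 1) = {d} := by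
      ext t
      simp only [mem_filter, mem_insert, mem_singleton]
      constructor
      · rintro ⟨rfl | rfl | rfl, h⟩
        · exact absurd h.symm (hne _)
        · exact absurd (h.symm.trans hab.symm) (hne _)
        · rfl
      · rintro rfl
        exact ⟨Or.inr (Or.inr rfl), hd⟩
    rw [e, card_singleton]

/-- an edge with two vertices of one colour and one of another -/
theorem turan_col {c : Fin n → Fin 3} {a b d : Fin n} (h : ({a, b, d} : Finset (Fin n)) ∈ turan c)
    (hab : c a = c b) (hbd : c b ≠ c d) : c d = c a + 1 := by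
  obtain ⟨h1, h2, h3⟩ := dist_of (turan_card3 c) h
  have g := good_of h1 h2 h3 h
  have key : ∀ p q r : Fin 3, p = q → q ≠ r → good p q r = true → r = p + 1 := by decide
  exact key _ _ _ hab hbd g

theorem turan_col' {c : Fin n → Fin 3} {a b d : Fin n} (h : ({a, b, d} : Finset (Fin n)) ∈ turan c)
    (hbd : c b = c d) (hab : c a ≠ c b) : c a = c b + 1 := by
  obtain ⟨h1, h2, h3⟩ := dist_of (turan_card3 c) h
  have g := good_of h1 h2 h3 h
  have key : ∀ p q r : Fin 3, q = r → p ≠ q → good p q r = true → p = q + 1 := by decide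
  exact key _ _ _ hbd hab g

theorem cpA_turan (c : Fin n → Fin 3) : cpA (turan c) c = ∅ := by
  rw [eq_empty_iff_forall_notMem]
  intro x hx
  unfold cpA at hx
  rw [mem_filter] at hx
  obtain ⟨-, hi, ⟨c1, c2, c3, c4⟩, ⟨e1, e2, e3⟩, f1, f2, f3⟩ := hx
  have c03 : c (x 0) = c (x 3) := c1.trans (c2.trans c3)
  have h1 := turan_col e1 c03 c4
  exact f1 (turan_pair c (hi.ne (by decide)) (hi.ne (by decide)) (hi.ne (by decide)) c1 h1)

theorem cpB_turan (c : Fin n → Fin 3) : cpB (turan c) c = ∅ := by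
  rw [eq_empty_iff_forall_notMem]
  intro x hx
  unfold cpB at hx
  rw [mem_filter] at hx
  obtain ⟨-, hi, ⟨c1, c2, c3, c4⟩, ⟨e1, e2, e3, e4, e5, e6, e7⟩, f1, f2⟩ := hx
  have h1 := turan_col e5 c2 c4
  have h2 := turan_col' e7 c3 c4
  have key : ∀ p q r : Fin 3, p = r → q = p + 1 → r = q + 1 → False := by decide
  exact key _ _ _ c2 h1 h2

theorem cpC_turan (c : Fin n → Fin 3) : cpC (turan c) c = ∅ := by
  rw [eq_empty_iff_forall_notMem]
  intro x hx
  unfold cpC at hx
  rw [mem_filter] at hx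
  obtain ⟨-, hi, ⟨c1, c2, c3, c4, c5⟩, ⟨e1, e2, e3, e4, e5, e6, e7⟩, f1, f2⟩ := hx
  have h1 := turan_col e1 c1 (by rw [c2]; exact c3)
  have h2 := turan_col e2 c1 (by rw [c2]; exact c4)
  exact c5 (h1.trans h2.symm)

/-- the size of Turán's construction -/
theorem turan_size (c : Fin n → Fin 3) (m : ℕ) (hm : 1 ≤ m) (hc : ∀ k, (cls c k).card = m) :
    2 * (turan c).card + 3 * m ^ 2 = 5 * m ^ 3 := by
  have h := fin_main (turan_card3 c) (turan_free c) c m hc
  have e : mixed (turan c) c = turan c := filter_true_of_mem (turan_mixed c)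
  rw [e, turan_bad, card_empty, mul_zero, add_zero] at h
  have hl := turan_card c m hc
  have h2 : 2 * m.choose 2 + m = m ^ 2 := by
    have h4 := Nat.choose_two_right m
    have h5 : 2 ∣ m * (m - 1) := by
      obtain ⟨k, rfl⟩ : ∃ k, m = k + 1 := ⟨m - 1, by omega⟩
      rw [Nat.add_sub_cancel, mul_comm]
      exact (Nat.even_mul_succ_self k).two_dvd
    have h6 : 2 * m.choose 2 = m * (m - 1) := by
      rw [h4]
      exact Nat.mul_div_cancel' h5
    rw [h6]
    obtain ⟨k, rfl⟩ : ∃ k, m = k + 1 := ⟨m - 1, by omega⟩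
    rw [Nat.add_sub_cancel]
    ring
  have h7 : 2 * (m ^ 3 + 3 * (m * m.choose 2)) + 3 * m ^ 2 = 5 * m ^ 3 := by
    have : 2 * (m ^ 3 + 3 * (m * m.choose 2)) + 3 * m ^ 2 =
        2 * m ^ 3 + 3 * m * (2 * m.choose 2 + m) := by ring
    rw [this, h2]
    ring
  have h8 : 3 * m * (2 * (turan c).card + 3 * m ^ 2) ≤ 3 * m * (5 * m ^ 3) := by
    calc 3 * m * (2 * (turan c).card + 3 * m ^ 2) = 6 * m * (turan c).card + 9 * m ^ 3 := by ring
      _ ≤ 15 * m ^ 4 := h
      _ = _ := by ring
  have h9 := Nat.le_of_mul_le_mul_left h8 (by omega)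
  omega

end Pool.Agent.V11247.Tri3
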