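import Pool.Agent.V11247.Tri3.Pt

/-! The inequality summed over all choices of two vertices in each of three classes. -/

set_option autoImplicit false

open Finset

namespace Pool.Agent.V11247.Tri3

variable {α : Type*} [DecidableEq α]

/-- the sum over the two members of a pair -/
def S (p : α × α) (g : α → ℕ) : ℕ := g p.1 + g p.2

theorem sum_fst (A : Finset α) (g : α → ℕ) :
    ∑ p ∈ A.offDiag, g p.1 = (A.card - 1) * ∑ x ∈ A, g x := by
  have h1 : ∑ p ∈ A.offDiag, g p.1 = ∑ x ∈ A, ∑ y ∈ A.erase x, g x := by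
    rw [Finset.sum_sigma']
    refine Finset.sum_nbij' (fun p => (⟨p.1, p.2⟩ : Σ _ : α, α)) (fun s => (s.1, s.2)) ?_ ?_ ?_ ?_ ?_
    · rintro ⟨x, y⟩ h
      rw [mem_offDiag] at h
      rw [mem_sigma, mem_erase]
      exact ⟨h.1, fun e => h.2.2 e.symm, h.2.1⟩
    · rintro ⟨x, y⟩ h
      rw [mem_sigma, mem_erase] at h
      rw [mem_offDiag]
      exact ⟨h.1, h.2.2, fun e => h.2.1 e.symm⟩
    · rintro ⟨x, y⟩ _
      rfl
    · rintro ⟨x, y⟩ _
      rfl
    · rintro ⟨x, y⟩ _
      rfl
  rw [h1, mul_sum]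
  refine sum_congr rfl fun x hx => ?_
  rw [sum_const, card_erase_of_mem hx, smul_eq_mul]

omit [DecidableEq α] in
theorem sum_swap (A : Finset α) (F : α × α → ℕ) :
    ∑ p ∈ A.offDiag, F p = ∑ p ∈ A.offDiag, F (p.2, p.1) := by
  refine Finset.sum_nbij' (fun p => (p.2, p.1)) (fun p => (p.2, p.1)) ?_ ?_ ?_ ?_ ?_
  · rintro ⟨x, y⟩ h
    rw [mem_offDiag] at h ⊢
    exact ⟨h.2.1, h.1, fun e => h.2.2 e.symm⟩
  · rintro ⟨x, y⟩ h
    rw [mem_offDiag] at h ⊢
    exact ⟨h.2.1, h.1, fun e => h.2.2 e.symm⟩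
  · rintro ⟨x, y⟩ _
    rfl
  · rintro ⟨x, y⟩ _
    rfl
  · rintro ⟨x, y⟩ _
    rfl

theorem sum_S (A : Finset α) (g : α → ℕ) :
    ∑ p ∈ A.offDiag, S p g = 2 * (A.card - 1) * ∑ x ∈ A, g x := by
  have h := sum_swap A (fun p => g p.2)
  simp only at h
  unfold S
  rw [sum_add_distrib, h, sum_fst]
  ring

omit [DecidableEq α] in
theorem card_off (A : Finset α) : A.offDiag.card = A.card * (A.card - 1) := by
  rw [offDiag_card, Nat.mul_sub, Nat.mul_one]

variable (h : α → α → α → Bool)

/-- the indicator -/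
def N (x y z : α) : ℕ := (h x y z).toNat

/-- twice the number of edges with two vertices in `A` and one in `B` -/
def W (A B : Finset α) : ℕ := ∑ p ∈ A.offDiag, ∑ y ∈ B, N h p.1 p.2 y

/-- the number of transversal edges -/
def T (A B C : Finset α) : ℕ := ∑ x ∈ A, ∑ y ∈ B, ∑ z ∈ C, N h x y z

/-- the bad configurations whose pair is in `B` -/
def Bad (B A C : Finset α) : ℕ :=
  ∑ q ∈ B.offDiag, ∑ x ∈ A, ∑ z ∈ C, N h q.1 q.2 x * N h q.1 q.2 z * N h q.1 x z

/-- The inequality for two vertices in each class. -/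
theorem point (x x' y y' z z' : α)
    (k1 : (h x x' y && h x x' y' && h y y' x && h y y' x') = false)
    (k2 : (h x x' z && h x x' z' && h z z' x && h z z' x') = false)
    (k3 : (h y y' z && h y y' z' && h z z' y && h z z' y') = false) :
    6 * (S (y, y') (fun y => N h x x' y) + S (z, z') (fun z => N h x x' z) +
      S (x, x') (fun x => N h y y' x) + S (z, z') (fun z => N h y y' z) +
      S (x, x') (fun x => N h z z' x) + S (y, y') (fun y => N h z z' y)) +
    3 * S (x, x') (fun x => S (y, y') fun y => S (z, z') fun z => N h x y z) ≤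
    60 + 2 * (S (x, x') (fun x => S (z, z') fun z => N h y y' x * N h y y' z *
        S (y, y') fun y => N h x y z) +
      S (y, y') (fun y => S (z, z') fun z => N h x x' y * N h x x' z *
        S (x, x') fun x => N h x y z) +
      S (x, x') (fun x => S (y, y') fun y => N h z z' x * N h z z' y *
        S (z, z') fun z => N h x y z)) := by
  have hc := core _ _ _ _ _ _ _ _ _ _ _ _ k1 k2 k3
  have t1 := tl (h x y z) ((h y y' x).toNat * (h y y' z).toNat + (h x x' y).toNat * (h x x' z).toNat + (h z z' x).toNat * (h z z' y).toNat)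
  have t2 := tl (h x y z') ((h y y' x).toNat * (h y y' z').toNat + (h x x' y).toNat * (h x x' z').toNat + (h z z' x).toNat * (h z z' y).toNat)
  have t3 := tl (h x y' z) ((h y y' x).toNat * (h y y' z).toNat + (h x x' y').toNat * (h x x' z).toNat + (h z z' x).toNat * (h z z' y').toNat)
  have t4 := tl (h x y' z') ((h y y' x).toNat * (h y y' z').toNat + (h x x' y').toNat * (h x x' z').toNat + (h z z' x).toNat * (h z z' y').toNat)
  have t5 := tl (h x' y z) ((h y y' x').toNat * (h y y' z).toNat + (h x x' y).toNat * (h x x' z).toNat + (h z z' x').toNat * (h z z' y).toNat)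
  have t6 := tl (h x' y z') ((h y y' x').toNat * (h y y' z').toNat + (h x x' y).toNat * (h x x' z').toNat + (h z z' x').toNat * (h z z' y).toNat)
  have t7 := tl (h x' y' z) ((h y y' x').toNat * (h y y' z).toNat + (h x x' y').toNat * (h x x' z).toNat + (h z z' x').toNat * (h z z' y').toNat)
  have t8 := tl (h x' y' z') ((h y y' x').toNat * (h y y' z').toNat + (h x x' y').toNat * (h x x' z').toNat + (h z z' x').toNat * (h z z' y').toNat)
  simp only [S, N]
  linarith

end Pool.Agent.V11247.Tri3
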