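import Pool.Agent.V11247.Tri3.Sum

/-! The summed inequality. -/

set_option autoImplicit false

open Finset

namespace Pool.Agent.V11247.Tri3

variable {α : Type*} [DecidableEq α]

omit [DecidableEq α] in
theorem S_sum {β : Type*} (s : Finset β) (p : α × α) (F : β → α → ℕ) :
    ∑ r ∈ s, S p (F r) = S p (fun x => ∑ r ∈ s, F r x) := by
  unfold S
  rw [sum_add_distrib]

omit [DecidableEq α] in
theorem S_mul (p : α × α) (c : ℕ) (g : α → ℕ) : S p (fun x => c * g x) = c * S p g := by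
  unfold S
  ring

/-- one variable pair not used, the sum over the two members of another one -/
theorem L1 (A B C : Finset α) (f : α × α → α → ℕ) :
    ∑ p ∈ A.offDiag, ∑ q ∈ B.offDiag, ∑ _r ∈ C.offDiag, S q (f p) =
      C.card * (C.card - 1) * (2 * (B.card - 1) * ∑ p ∈ A.offDiag, ∑ y ∈ B, f p y) := by
  simp only [sum_const, smul_eq_mul, card_off]
  simp only [← mul_sum, sum_S]

theorem L2 (A B C : Finset α) (f : α × α → α → ℕ) :
    ∑ p ∈ A.offDiag, ∑ _q ∈ B.offDiag, ∑ r ∈ C.offDiag, S r (f p) =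
      B.card * (B.card - 1) * (2 * (C.card - 1) * ∑ p ∈ A.offDiag, ∑ z ∈ C, f p z) := by
  rw [← L1 A C B f]
  refine sum_congr rfl fun p _ => ?_
  rw [sum_comm]

theorem L3 (A B C : Finset α) (f : α × α → α → ℕ) :
    ∑ p ∈ A.offDiag, ∑ q ∈ B.offDiag, ∑ _r ∈ C.offDiag, S p (f q) =
      C.card * (C.card - 1) * (2 * (A.card - 1) * ∑ q ∈ B.offDiag, ∑ x ∈ A, f q x) := by
  rw [sum_comm, L1]

theorem L4 (A B C : Finset α) (f : α × α → α → ℕ) :
    ∑ _p ∈ A.offDiag, ∑ q ∈ B.offDiag, ∑ r ∈ C.offDiag, S r (f q) =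
      A.card * (A.card - 1) * (2 * (C.card - 1) * ∑ q ∈ B.offDiag, ∑ z ∈ C, f q z) := by
  rw [sum_comm, L2]

theorem L5 (A B C : Finset α) (f : α × α → α → ℕ) :
    ∑ p ∈ A.offDiag, ∑ _q ∈ B.offDiag, ∑ r ∈ C.offDiag, S p (f r) =
      B.card * (B.card - 1) * (2 * (A.card - 1) * ∑ r ∈ C.offDiag, ∑ x ∈ A, f r x) := by
  rw [← L3 A C B f]
  refine sum_congr rfl fun p _ => ?_
  rw [sum_comm]

theorem L6 (A B C : Finset α) (f : α × α → α → ℕ) :
    ∑ _p ∈ A.offDiag, ∑ q ∈ B.offDiag, ∑ r ∈ C.offDiag, S q (f r) =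
      A.card * (A.card - 1) * (2 * (B.card - 1) * ∑ r ∈ C.offDiag, ∑ y ∈ B, f r y) := by
  rw [← L4 A C B f]
  refine sum_congr rfl fun p _ => ?_
  rw [sum_comm]

theorem L7 (A B C : Finset α) (f : α → α → α → ℕ) :
    ∑ p ∈ A.offDiag, ∑ q ∈ B.offDiag, ∑ r ∈ C.offDiag,
      S p (fun x => S q fun y => S r fun z => f x y z) =
      (2 * (A.card - 1)) * ((2 * (B.card - 1)) * ((2 * (C.card - 1)) *
        ∑ x ∈ A, ∑ y ∈ B, ∑ z ∈ C, f x y z)) := by
  simp only [S_sum, sum_S, S_mul, ← mul_sum]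
  ring

/-- the sum over the members of two pairs -/
theorem L8 (A B C : Finset α) (f : α × α → α → α → ℕ) :
    ∑ p ∈ A.offDiag, ∑ q ∈ B.offDiag, ∑ r ∈ C.offDiag,
      S p (fun x => S r fun z => f q x z) =
      (2 * (A.card - 1)) * ((2 * (C.card - 1)) *
        ∑ q ∈ B.offDiag, ∑ x ∈ A, ∑ z ∈ C, f q x z) := by
  rw [sum_comm]
  simp only [S_sum, sum_S, S_mul, ← mul_sum]
  ring

theorem L9 (A B C : Finset α) (f : α × α → α → α → ℕ) :
    ∑ p ∈ A.offDiag, ∑ q ∈ B.offDiag, ∑ r ∈ C.offDiag,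
      S q (fun y => S r fun z => f p y z) =
      (2 * (B.card - 1)) * ((2 * (C.card - 1)) *
        ∑ p ∈ A.offDiag, ∑ y ∈ B, ∑ z ∈ C, f p y z) := by
  rw [← L8 B A C f, sum_comm]

theorem L10 (A B C : Finset α) (f : α × α → α → α → ℕ) :
    ∑ p ∈ A.offDiag, ∑ q ∈ B.offDiag, ∑ r ∈ C.offDiag,
      S p (fun x => S q fun y => f r x y) =
      (2 * (A.card - 1)) * ((2 * (B.card - 1)) *
        ∑ r ∈ C.offDiag, ∑ x ∈ A, ∑ y ∈ B, f r x y) := by
  rw [← L8 A C B f]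
  refine sum_congr rfl fun p _ => ?_
  rw [sum_comm]

variable (h : α → α → α → Bool)

omit [DecidableEq α] in
theorem N1 {h : α → α → α → Bool} (s1 : ∀ x y z, h x y z = h y x z) (x y z : α) :
    N h x y z = N h y x z := by
  unfold N
  rw [s1]

omit [DecidableEq α] in
theorem N2 {h : α → α → α → Bool} (s2 : ∀ x y z, h x y z = h x z y) (x y z : α) :
    N h x y z = N h x z y := by
  unfold N
  rw [s2]

/-- the bad configurations, symmetrised -/
theorem bad_sym {h : α → α → α → Bool} (s1 : ∀ x y z, h x y z = h y x z) (B A C : Finset α)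
    (g : α → α → α → ℕ) (hg : ∀ x y z, g x y z = N h y x z) :
    ∑ q ∈ B.offDiag, ∑ x ∈ A, ∑ z ∈ C, N h q.1 q.2 x * N h q.1 q.2 z * S q (fun y => g x y z) =
      2 * Bad h B A C := by
  have e1 : ∑ q ∈ B.offDiag, ∑ x ∈ A, ∑ z ∈ C, N h q.1 q.2 x * N h q.1 q.2 z *
      S q (fun y => g x y z) =
      ∑ q ∈ B.offDiag, ∑ x ∈ A, ∑ z ∈ C, N h q.1 q.2 x * N h q.1 q.2 z * N h q.1 x z +
      ∑ q ∈ B.offDiag, ∑ x ∈ A, ∑ z ∈ C, N h q.1 q.2 x * N h q.1 q.2 z * N h q.2 x z := by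
    rw [← sum_add_distrib]
    refine sum_congr rfl fun q _ => ?_
    rw [← sum_add_distrib]
    refine sum_congr rfl fun x _ => ?_
    rw [← sum_add_distrib]
    refine sum_congr rfl fun z _ => ?_
    unfold S
    simp only
    rw [hg, hg]
    ring
  rw [e1, sum_swap B (fun q => ∑ x ∈ A, ∑ z ∈ C, N h q.1 q.2 x * N h q.1 q.2 z * N h q.2 x z)]
  unfold Bad
  simp only
  have e2 : ∑ q ∈ B.offDiag, ∑ x ∈ A, ∑ z ∈ C, N h q.2 q.1 x * N h q.2 q.1 z * N h q.1 x z =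
      ∑ q ∈ B.offDiag, ∑ x ∈ A, ∑ z ∈ C, N h q.1 q.2 x * N h q.1 q.2 z * N h q.1 x z := by
    refine sum_congr rfl fun q _ => sum_congr rfl fun x _ => sum_congr rfl fun z _ => ?_
    rw [N1 s1 q.2 q.1 x, N1 s1 q.2 q.1 z]
  rw [e2]
  ring

/-- The inequality for three classes of any sizes. -/
theorem total {h : α → α → α → Bool} (s1 : ∀ x y z, h x y z = h y x z)
    (s2 : ∀ x y z, h x y z = h x z y) (A B C : Finset α)
    (k1 : ∀ x ∈ A, ∀ x' ∈ A, x ≠ x' → ∀ y ∈ B, ∀ y' ∈ B, y ≠ y' →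
      (h x x' y && h x x' y' && h y y' x && h y y' x') = false)
    (k2 : ∀ x ∈ A, ∀ x' ∈ A, x ≠ x' → ∀ y ∈ C, ∀ y' ∈ C, y ≠ y' →
      (h x x' y && h x x' y' && h y y' x && h y y' x') = false)
    (k3 : ∀ x ∈ B, ∀ x' ∈ B, x ≠ x' → ∀ y ∈ C, ∀ y' ∈ C, y ≠ y' →
      (h x x' y && h x x' y' && h y y' x && h y y' x') = false) :
    6 * (C.card * (C.card - 1) * (2 * (B.card - 1) * W h A B) +
      B.card * (B.card - 1) * (2 * (C.card - 1) * W h A C) +
      C.card * (C.card - 1) * (2 * (A.card - 1) * W h B A) +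
      A.card * (A.card - 1) * (2 * (C.card - 1) * W h B C) +
      B.card * (B.card - 1) * (2 * (A.card - 1) * W h C A) +
      A.card * (A.card - 1) * (2 * (B.card - 1) * W h C B)) +
    3 * ((2 * (A.card - 1)) * ((2 * (B.card - 1)) * ((2 * (C.card - 1)) * T h A B C))) ≤
    A.card * (A.card - 1) * (B.card * (B.card - 1) * (C.card * (C.card - 1) * 60)) +
      2 * ((2 * (A.card - 1)) * ((2 * (C.card - 1)) * (2 * Bad h B A C)) +
        (2 * (B.card - 1)) * ((2 * (C.card - 1)) * (2 * Bad h A B C)) +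
        (2 * (A.card - 1)) * ((2 * (B.card - 1)) * (2 * Bad h C A B))) := by
  have hsum : ∑ p ∈ A.offDiag, ∑ q ∈ B.offDiag, ∑ r ∈ C.offDiag,
      (6 * (S q (fun y => N h p.1 p.2 y) + S r (fun z => N h p.1 p.2 z) +
        S p (fun x => N h q.1 q.2 x) + S r (fun z => N h q.1 q.2 z) +
        S p (fun x => N h r.1 r.2 x) + S q (fun y => N h r.1 r.2 y)) +
      3 * S p (fun x => S q fun y => S r fun z => N h x y z)) ≤
      ∑ p ∈ A.offDiag, ∑ q ∈ B.offDiag, ∑ r ∈ C.offDiag,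
      (60 + 2 * (S p (fun x => S r fun z => N h q.1 q.2 x * N h q.1 q.2 z *
        S q fun y => N h x y z) +
      S q (fun y => S r fun z => N h p.1 p.2 y * N h p.1 p.2 z *
        S p fun x => N h x y z) +
      S p (fun x => S q fun y => N h r.1 r.2 x * N h r.1 r.2 y *
        S r fun z => N h x y z))) := by
    refine sum_le_sum fun p hp => sum_le_sum fun q hq => sum_le_sum fun r hr => ?_
    obtain ⟨x, x'⟩ := p
    obtain ⟨y, y'⟩ := q
    obtain ⟨z, z'⟩ := r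
    rw [mem_offDiag] at hp hq hr
    exact point h x x' y y' z z' (k1 x hp.1 x' hp.2.1 hp.2.2 y hq.1 y' hq.2.1 hq.2.2)
      (k2 x hp.1 x' hp.2.1 hp.2.2 z hr.1 z' hr.2.1 hr.2.2)
      (k3 y hq.1 y' hq.2.1 hq.2.2 z hr.1 z' hr.2.1 hr.2.2)
  simp only [sum_add_distrib, ← mul_sum] at hsum
  rw [L1 A B C (fun p y => N h p.1 p.2 y), L2 A B C (fun p y => N h p.1 p.2 y),
    L3 A B C (fun p y => N h p.1 p.2 y), L4 A B C (fun p y => N h p.1 p.2 y),
    L5 A B C (fun p y => N h p.1 p.2 y), L6 A B C (fun p y => N h p.1 p.2 y),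
    L7 A B C (fun x y z => N h x y z),
    L8 A B C (fun q x z => N h q.1 q.2 x * N h q.1 q.2 z * S q fun y => N h x y z),
    L9 A B C (fun p y z => N h p.1 p.2 y * N h p.1 p.2 z * S p fun x => N h x y z),
    L10 A B C (fun r x y => N h r.1 r.2 x * N h r.1 r.2 y * S r fun z => N h x y z),
    bad_sym s1 B A C (fun x y z => N h x y z) (fun x y z => N1 s1 x y z),
    bad_sym s1 A B C (fun y x z => N h x y z) (fun y x z => rfl),
    bad_sym s1 C A B (fun x z y => N h x y z) (fun x z y => by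
      rw [N2 s2 x y z, N1 s1 x z y])] at hsum
  simp only [sum_const, smul_eq_mul, card_off] at hsum
  exact hsum

end Pool.Agent.V11247.Tri3
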